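import Pool.Agent.Y123.ST.Full3

/-!
# Sums with a fixed object: block matrices and the ambient torsor
-/

set_option autoImplicit false
set_option linter.unusedSectionVars false

open Matrix

namespace Pool.Agent.Y123.SR

open Pool.Agent.TH127.PT Pool.Agent.Y118.HP Pool.Agent.Y123.ST

variable {B₀ : Type} [Fintype B₀] [DecidableEq B₀] {n N : ℕ} {K : Subfield ℂ}

/-- the index set -/
abbrev I2 (B₀ : Type) (n N : ℕ) : Type := B₀ ⊕ (Fin n × Fin N)

/-- block matrices -/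
noncomputable def E2 (x : Matrix B₀ B₀ ℂ) (X : Fin N → Matrix (Fin n) (Fin n) ℂ) :
    Matrix (I2 B₀ n N) (I2 B₀ n N) ℂ :=
  fromBlocks x 0 0 (bd X)

theorem E2_mul (x y : Matrix B₀ B₀ ℂ) (X Y : Fin N → Matrix (Fin n) (Fin n) ℂ) :
    E2 x X * E2 y Y = E2 (x * y) (fun j => X j * Y j) := by
  unfold E2
  rw [fromBlocks_multiply, bd_mul]
  simp

theorem E2_add (x y : Matrix B₀ B₀ ℂ) (X Y : Fin N → Matrix (Fin n) (Fin n) ℂ) :
    E2 x X + E2 y Y = E2 (x + y) (X + Y) := by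
  unfold E2
  rw [fromBlocks_add, show bd (X + Y) = bd X + bd Y from blockDiagonal_add _ _]
  simp

theorem E2_smul (s : ℂ) (x : Matrix B₀ B₀ ℂ) (X : Fin N → Matrix (Fin n) (Fin n) ℂ) :
    s • E2 x X = E2 (s • x) (s • X) := by
  unfold E2
  rw [fromBlocks_smul, show bd (s • X) = s • bd X from blockDiagonal_smul _ _]
  simp

theorem E2_one : E2 (1 : Matrix B₀ B₀ ℂ) (1 : Fin N → Matrix (Fin n) (Fin n) ℂ) = 1 := by
  unfold E2
  rw [show bd (1 : Fin N → Matrix (Fin n) (Fin n) ℂ) = 1 from blockDiagonal_one, fromBlocks_one]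

theorem E2_zero : E2 (0 : Matrix B₀ B₀ ℂ) (0 : Fin N → Matrix (Fin n) (Fin n) ℂ) = 0 := by
  unfold E2
  rw [show bd (0 : Fin N → Matrix (Fin n) (Fin n) ℂ) = 0 from blockDiagonal_zero, fromBlocks_zero]

theorem E2_inj {x y : Matrix B₀ B₀ ℂ} {X Y : Fin N → Matrix (Fin n) (Fin n) ℂ} (h : E2 x X = E2 y Y) :
    x = y ∧ X = Y := by
  unfold E2 at h
  rw [fromBlocks_inj] at h
  exact ⟨h.1, bd_inj h.2.2.2⟩

theorem E2_mul_inv {x : Matrix B₀ B₀ ℂ} (hx : IsUnit x) {X : Fin N → Matrix (Fin n) (Fin n) ℂ}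
    (hX : ∀ j, IsUnit (X j).det) : E2 x X * E2 x⁻¹ (fun j => (X j)⁻¹) = 1 := by
  rw [E2_mul, mul_nonsing_inv _ ((Matrix.isUnit_iff_isUnit_det x).1 hx), ← E2_one]
  congr 1
  funext j
  exact mul_nonsing_inv _ (hX j)

theorem E2_isUnit {x : Matrix B₀ B₀ ℂ} (hx : IsUnit x) {X : Fin N → Matrix (Fin n) (Fin n) ℂ}
    (hX : ∀ j, IsUnit (X j).det) : IsUnit (E2 x X) :=
  IsUnit.of_mul_eq_one _ (E2_mul_inv hx hX)

theorem E2_inv {x : Matrix B₀ B₀ ℂ} (hx : IsUnit x) {X : Fin N → Matrix (Fin n) (Fin n) ℂ}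
    (hX : ∀ j, IsUnit (X j).det) : (E2 x X)⁻¹ = E2 x⁻¹ (fun j => (X j)⁻¹) :=
  inv_eq_right_inv (E2_mul_inv hx hX)

theorem E2_map {R : Type*} [FunLike R ℂ ℂ] [ZeroHomClass R ℂ ℂ] (σ : R) (x : Matrix B₀ B₀ ℂ)
    (X : Fin N → Matrix (Fin n) (Fin n) ℂ) : (E2 x X).map σ = E2 (x.map σ) (fun j => (X j).map σ) := by
  unfold E2
  rw [fromBlocks_map, show (bd X).map σ = bd (fun j => (X j).map σ) from blockDiagonal_map X σ (map_zero σ)]
  congr 1
  · ext i j; simp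
  · ext i j; simp

/-- the row and the column of `b₀` are zero outside of the diagonal -/
def Cm (b₀ : B₀) (x : Matrix B₀ B₀ ℂ) : Prop := ∀ k, k ≠ b₀ → x b₀ k = 0 ∧ x k b₀ = 0

theorem cm_one (b₀ : B₀) : Cm b₀ 1 := by
  intro k hk
  exact ⟨Matrix.one_apply_ne hk.symm, Matrix.one_apply_ne hk⟩

theorem cm_iff {b₀ : B₀} {x : Matrix B₀ B₀ ℂ} : Cm b₀ x ↔ x * Matrix.single b₀ b₀ 1 = Matrix.single b₀ b₀ 1 * x := by
  have e1 : ∀ i j, (x * Matrix.single b₀ b₀ (1 : ℂ)) i j = if j = b₀ then x i b₀ else 0 := by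
    intro i j
    rw [Matrix.mul_apply, Finset.sum_eq_single b₀]
    · rw [Matrix.single_apply]
      by_cases h : j = b₀
      · rw [if_pos ⟨rfl, h.symm⟩, if_pos h, mul_one]
      · rw [if_neg (fun hh => h hh.2.symm), if_neg h, mul_zero]
    · intro k _ hk
      rw [Matrix.single_apply, if_neg (fun hh => hk hh.1.symm), mul_zero]
    · intro h
      exact absurd (Finset.mem_univ _) h
  have e2 : ∀ i j, (Matrix.single b₀ b₀ (1 : ℂ) * x) i j = if i = b₀ then x b₀ j else 0 := by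
    intro i j
    rw [Matrix.mul_apply, Finset.sum_eq_single b₀]
    · rw [Matrix.single_apply]
      by_cases h : i = b₀
      · rw [if_pos ⟨h.symm, rfl⟩, if_pos h, one_mul]
      · rw [if_neg (fun hh => h hh.1.symm), if_neg h, zero_mul]
    · intro k _ hk
      rw [Matrix.single_apply, if_neg (fun hh => hk hh.2.symm), zero_mul]
    · intro h
      exact absurd (Finset.mem_univ _) h
  constructor
  · intro h
    ext i j
    rw [e1, e2]
    by_cases h1 : j = b₀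
    · rw [if_pos h1]
      by_cases h2 : i = b₀
      · rw [if_pos h2, h1, h2]
      · rw [if_neg h2, (h i h2).2]
    · rw [if_neg h1]
      by_cases h2 : i = b₀
      · rw [if_pos h2, (h j h1).1]
      · rw [if_neg h2]
  · intro h k hk
    constructor
    · have h1 := congrFun (congrFun h b₀) k
      rw [e1, e2, if_neg hk, if_pos rfl] at h1
      exact h1.symm
    · have h1 := congrFun (congrFun h k) b₀
      rw [e1, e2, if_neg hk, if_pos rfl] at h1
      exact h1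

theorem cm_mul {b₀ : B₀} {x y : Matrix B₀ B₀ ℂ} (hx : Cm b₀ x) (hy : Cm b₀ y) : Cm b₀ (x * y) := by
  rw [cm_iff] at *
  rw [Matrix.mul_assoc, hy, ← Matrix.mul_assoc, hx, Matrix.mul_assoc]

theorem cm_mul_apply {b₀ : B₀} {x : Matrix B₀ B₀ ℂ} (hx : Cm b₀ x) (y : Matrix B₀ B₀ ℂ) :
    (x * y) b₀ b₀ = x b₀ b₀ * y b₀ b₀ := by
  rw [Matrix.mul_apply, Finset.sum_eq_single b₀]
  · intro k _ hk
    rw [(hx k hk).1, zero_mul]
  · intro h
    exact absurd (Finset.mem_univ _) h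

theorem cm_inv {b₀ : B₀} {x : Matrix B₀ B₀ ℂ} (hu : IsUnit x) (hx : Cm b₀ x) :
    Cm b₀ x⁻¹ ∧ x b₀ b₀ ≠ 0 ∧ x⁻¹ b₀ b₀ = (x b₀ b₀)⁻¹ := by
  have hd := (Matrix.isUnit_iff_isUnit_det x).1 hu
  have h1 : x * x⁻¹ = 1 := mul_nonsing_inv _ hd
  have h2 : x⁻¹ * x = 1 := nonsing_inv_mul _ hd
  have h3 : x b₀ b₀ * x⁻¹ b₀ b₀ = 1 := by
    rw [← cm_mul_apply hx, h1, Matrix.one_apply_eq]
  refine ⟨?_, left_ne_zero_of_mul_eq_one h3, eq_inv_of_mul_eq_one_right h3⟩
  rw [cm_iff] at *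
  calc x⁻¹ * Matrix.single b₀ b₀ 1 = x⁻¹ * (Matrix.single b₀ b₀ 1 * x) * x⁻¹ := by
        rw [Matrix.mul_assoc, Matrix.mul_assoc, h1, Matrix.mul_one]
    _ = Matrix.single b₀ b₀ 1 * x⁻¹ := by
        rw [← hx, ← Matrix.mul_assoc, h2, Matrix.one_mul]

/-- the fibre product with the torsor of symplectic similitudes -/
def FP (Q : Fin N → Matrix (Fin n) (Fin n) ℂ) (b₀ : B₀) (S : Set (Matrix B₀ B₀ ℂ)) :
    Set (Matrix (I2 B₀ n N) (I2 B₀ n N) ℂ) :=
  {y | ∃ (x : Matrix B₀ B₀ ℂ) (X : Fin N → Matrix (Fin n) (Fin n) ℂ), x ∈ S ∧ Cm b₀ x ∧ (X, x b₀ b₀) ∈ Tor Q ∧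
    y = E2 x X}

/-- a set of invertible matrices which is closed for polynomials over `K` -/
theorem alg_of {M : Type} [Fintype M] [DecidableEq M] {S : Set (Matrix M M ℂ)} (hS : ∀ x ∈ S, IsUnit x)
    (h : ∀ y, IsUnit y → (∀ p ∈ PK K (M × M), (∀ x ∈ S, MvPolynomial.eval (fl x) p = 0) →
      MvPolynomial.eval (fl y) p = 0) → y ∈ S) :
    ∃ I : Set (MvPolynomial (M × M) ℂ), (∀ p ∈ I, ∀ m, p.coeff m ∈ K) ∧
      ∀ x : Matrix M M ℂ, x ∈ S ↔ IsUnit x ∧ ∀ p ∈ I, MvPolynomial.eval (fun b => x b.1 b.2) p = 0 := by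
  refine ⟨{p | p ∈ PK K (M × M) ∧ ∀ x ∈ S, MvPolynomial.eval (fl x) p = 0}, fun p hp m => PK_coeff hp.1 m,
    fun x => ⟨fun hx => ⟨hS x hx, fun p hp => hp.2 x hx⟩, fun hx => h x hx.1 fun p hp h1 => hx.2 p ⟨hp, h1⟩⟩⟩

theorem fp_sub (hn : Even n) {Q : Fin N → Matrix (Fin n) (Fin n) ℂ} (hQ : ∀ j a b, Q j a b ∈ K) (b₀ : B₀)
    {S : Set (Matrix B₀ B₀ ℂ)} (hS : IsSubtorsor K S) : IsSubtorsor K (FP Q b₀ S) := by
  classical
  have hunit : ∀ y ∈ FP Q b₀ S, IsUnit y := by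
    rintro _ ⟨x, X, h1, h2, h3, rfl⟩
    exact E2_isUnit (hS.isUnit x h1) fun j => (tor_det hn h3.1 (h3.2 j)).1
  refine ⟨hunit, ?_, alg_of hunit ?_⟩
  · rintro _ ⟨x, X, h1, h2, h3, rfl⟩ _ ⟨y, Y, h1', h2', h3', rfl⟩ _ ⟨z, Z, h1'', h2'', h3'', rfl⟩
    obtain ⟨h4, h5, h6⟩ := cm_inv (hS.isUnit y h1') h2'
    refine ⟨x * y⁻¹ * z, fun j => X j * (Y j)⁻¹ * Z j, hS.torsor x h1 y h1' z h1'', cm_mul (cm_mul h2 h4) h2'', ?_, ?_⟩
    · have h7 := tor_mul hn h3 h3' h3''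
      convert h7 using 2
      rw [cm_mul_apply (cm_mul h2 h4), cm_mul_apply h2, h6, div_eq_mul_inv]
    · rw [E2_inv (hS.isUnit y h1') fun j => (tor_det hn h3'.1 (h3'.2 j)).1, E2_mul, E2_mul]
  · intro y hu hp
    -- coordinates
    have hx12 : ∀ b q, y (Sum.inl b) (Sum.inr q) = 0 := by
      intro b q
      have := hp (MvPolynomial.X (Sum.inl b, Sum.inr q)) (PK_X _) (by
        rintro _ ⟨x, X, -, -, -, rfl⟩
        rw [MvPolynomial.eval_X]
        rfl)
      rwa [MvPolynomial.eval_X] at this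
    have hx21 : ∀ b q, y (Sum.inr q) (Sum.inl b) = 0 := by
      intro b q
      have := hp (MvPolynomial.X (Sum.inr q, Sum.inl b)) (PK_X _) (by
        rintro _ ⟨x, X, -, -, -, rfl⟩
        rw [MvPolynomial.eval_X]
        rfl)
      rwa [MvPolynomial.eval_X] at this
    have hx22 : ∀ (a b : Fin n) (j k : Fin N), j ≠ k → y (Sum.inr (a, j)) (Sum.inr (b, k)) = 0 := by
      intro a b j k hjk
      have := hp (MvPolynomial.X (Sum.inr (a, j), Sum.inr (b, k))) (PK_X _) (by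
        rintro _ ⟨x, X, -, -, -, rfl⟩
        rw [MvPolynomial.eval_X]
        show blockDiagonal X (a, j) (b, k) = 0
        exact blockDiagonal_apply_ne _ _ _ hjk)
      rwa [MvPolynomial.eval_X] at this
    set x : Matrix B₀ B₀ ℂ := Matrix.of fun b c => y (Sum.inl b) (Sum.inl c) with hx
    set X : Fin N → Matrix (Fin n) (Fin n) ℂ := fun j => Matrix.of fun a b => y (Sum.inr (a, j)) (Sum.inr (b, j)) with hX
    have hy : y = E2 x X := by
      ext i j
      rcases i with b | ⟨a, j1⟩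
      · rcases j with c | q
        · rfl
        · rw [hx12]; rfl
      · rcases j with c | ⟨b, k1⟩
        · rw [hx21]; rfl
        · by_cases h : j1 = k1
          · subst h
            show _ = blockDiagonal X (a, j1) (b, j1)
            rw [blockDiagonal_apply_eq]
            rfl
          · rw [hx22 _ _ _ _ h]
            show 0 = blockDiagonal X (a, j1) (b, k1)
            rw [blockDiagonal_apply_ne _ _ _ h]
    have hux : IsUnit x := by
      rw [Matrix.isUnit_iff_isUnit_det] at hu ⊢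
      rw [hy] at hu
      unfold E2 at hu
      rw [det_fromBlocks_zero₂₁] at hu
      exact isUnit_of_mul_isUnit_left hu
    have hxS : x ∈ S := by
      obtain ⟨I, h1, h2⟩ := hS.algebraic
      rw [h2]
      refine ⟨hux, fun p hpI => ?_⟩
      obtain ⟨p0, rfl⟩ := exists_map p (h1 p hpI)
      have h3 := hp (MvPolynomial.rename (Prod.map Sum.inl Sum.inl) (MvPolynomial.map (algebraMap K ℂ) p0))
        ⟨MvPolynomial.rename (Prod.map Sum.inl Sum.inl) p0, by rw [MvPolynomial.map_rename]⟩ (by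
        rintro _ ⟨x', X', h4, -, -, rfl⟩
        rw [MvPolynomial.eval_rename]
        exact ((h2 x').1 h4).2 _ hpI)
      rw [MvPolynomial.eval_rename] at h3
      exact h3
    have hcm : Cm b₀ x := by
      intro k hk
      constructor
      · have := hp (MvPolynomial.X (Sum.inl b₀, Sum.inl k)) (PK_X _) (by
          rintro _ ⟨x', X', -, h4, -, rfl⟩
          rw [MvPolynomial.eval_X]
          exact (h4 k hk).1)
        rwa [MvPolynomial.eval_X] at this
      · have := hp (MvPolynomial.X (Sum.inl k, Sum.inl b₀)) (PK_X _) (by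
          rintro _ ⟨x', X', -, h4, -, rfl⟩
          rw [MvPolynomial.eval_X]
          exact (h4 k hk).2)
        rwa [MvPolynomial.eval_X] at this
    have h0 := (cm_inv hux hcm).2.1
    refine ⟨x, X, hxS, hcm, ⟨h0, fun j => ?_⟩, hy⟩
    simp only
    have hev : ∀ (x' : Matrix B₀ B₀ ℂ) (X' : Fin N → Matrix (Fin n) (Fin n) ℂ) (a b : Fin n),
        MvPolynomial.eval (fl (E2 x' X')) (∑ l, (∑ k, MvPolynomial.X (Sum.inr (a, j), Sum.inr (k, j)) *
          MvPolynomial.C (Q j k l)) * MvPolynomial.X (Sum.inr (b, j), Sum.inr (l, j)) -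
          MvPolynomial.X (Sum.inl b₀, Sum.inl b₀) * MvPolynomial.C (jm ℂ n a b)) =
        (X' j * Q j * (X' j)ᵀ) a b - x' b₀ b₀ * jm ℂ n a b := by
      intro x' X' a b
      have hbl : ∀ p q : Fin n, fl (E2 x' X') (Sum.inr (p, j), Sum.inr (q, j)) = X' j p q := by
        intro p q
        show blockDiagonal X' (p, j) (q, j) = X' j p q
        rw [blockDiagonal_apply_eq]
      simp only [map_sub, map_sum, map_mul, MvPolynomial.eval_X, MvPolynomial.eval_C, hbl, Matrix.mul_apply,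
        Matrix.transpose_apply]
      rfl
    ext a b
    have h3 := hp (∑ l, (∑ k, MvPolynomial.X (Sum.inr (a, j), Sum.inr (k, j)) *
          MvPolynomial.C (Q j k l)) * MvPolynomial.X (Sum.inr (b, j), Sum.inr (l, j)) -
          MvPolynomial.X (Sum.inl b₀, Sum.inl b₀) * MvPolynomial.C (jm ℂ n a b)) (by
        refine Subring.sub_mem _ (Subring.sum_mem _ fun l _ => Subring.mul_mem _ (Subring.sum_mem _ fun k _ =>
          Subring.mul_mem _ (PK_X _) (PK_C (hQ _ _ _))) (PK_X _)) (Subring.mul_mem _ (PK_X _) (PK_C (jm_mem K a b)))) (by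
        rintro _ ⟨x', X', -, -, h4, rfl⟩
        rw [hev, h4.2 j, Matrix.smul_apply, smul_eq_mul, sub_self])
    rw [hy, hev, sub_eq_zero] at h3
    rw [h3, Matrix.smul_apply, smul_eq_mul]

/-- all invertible matrices -/
theorem units_sub : IsSubtorsor K {x : Matrix B₀ B₀ ℂ | IsUnit x} := by
  refine ⟨fun x hx => hx, fun x hx y hy z hz => ?_, ∅, fun p hp => absurd hp (Set.notMem_empty p), fun x => ?_⟩
  · exact (hx.mul ((Matrix.isUnit_nonsing_inv_iff).2 hy)).mul hz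
  · simp

end Pool.Agent.Y123.SR
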