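import Pool.Agent.Y123.SR.R1

/-!
# Sums with a fixed object: the Lie algebra
-/

set_option autoImplicit false
set_option linter.unusedSectionVars false

open Matrix

namespace Pool.Agent.Y123.SR

open Pool.Agent.TH127.PT Pool.Agent.Y118.HP Pool.Agent.Y123.ST

variable {B₀ : Type} [Fintype B₀] [DecidableEq B₀] {n N : ℕ} {K : Subfield ℂ}
  {T : Set (Matrix (I2 B₀ n N) (I2 B₀ n N) ℂ)} {Q c : Fin N → Matrix (Fin n) (Fin n) ℂ} {c₀ : Matrix B₀ B₀ ℂ} {b₀ : B₀}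

/-- the block `j` of the Lie algebra -/
def LB (T : Set (Matrix (I2 B₀ n N) (I2 B₀ n N) ℂ)) (j : Fin N) : Submodule ℂ (Matrix (Fin n) (Fin n) ℂ) where
  carrier := {X | fl (E2 0 (Pi.single j X)) ∈ LL T}
  zero_mem' := by
    show fl (E2 0 (Pi.single j 0)) ∈ LL T
    rw [Pi.single_zero, E2_zero, fl_zero]
    exact Submodule.zero_mem _
  add_mem' := by
    intro X Y hX hY
    show fl (E2 0 (Pi.single j (X + Y))) ∈ LL T
    have h1 : E2 (0 : Matrix B₀ B₀ ℂ) (Pi.single j (X + Y) : Fin N → Matrix (Fin n) (Fin n) ℂ) =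
        E2 0 (Pi.single j X) + E2 0 (Pi.single j Y) := by
      rw [E2_add, Pi.single_add, add_zero]
    rw [h1, fl_add]
    exact Submodule.add_mem _ hX hY
  smul_mem' := by
    intro z X hX
    show fl (E2 0 (Pi.single j (z • X))) ∈ LL T
    have h1 : E2 (0 : Matrix B₀ B₀ ℂ) (Pi.single j (z • X) : Fin N → Matrix (Fin n) (Fin n) ℂ) =
        z • E2 0 (Pi.single j X) := by
      rw [E2_smul, Pi.single_smul, smul_zero]
    rw [h1, fl_smul]
    exact Submodule.smul_mem _ _ hX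

theorem mem_LB {j : Fin N} {X : Matrix (Fin n) (Fin n) ℂ} : X ∈ LB T j ↔ fl (E2 0 (Pi.single j X)) ∈ LL T := Iff.rfl

theorem s2_conj (j : Fin N) (A B : Matrix (Fin n) (Fin n) ℂ) (w₀ : Matrix B₀ B₀ ℂ)
    (β : Fin N → Matrix (Fin n) (Fin n) ℂ) :
    E2 1 (sg j A) * E2 w₀ β * E2 1 (sg j B) = E2 w₀ β + E2 0 (Pi.single j (A * β j * B - β j)) := by
  rw [E2_mul, E2_mul, E2_add, one_mul, mul_one, add_zero]
  congr 1
  funext k
  by_cases h : k = j
  · subst h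
    rw [sg_same, sg_same, Pi.add_apply, Pi.single_eq_same]
    abel
  · rw [sg_ne h, sg_ne h, Pi.add_apply, Pi.single_eq_of_ne h, one_mul, mul_one, add_zero]

theorem s2_conj_single (j : Fin N) (A B X : Matrix (Fin n) (Fin n) ℂ) :
    E2 (1 : Matrix B₀ B₀ ℂ) (sg j A) * E2 0 (Pi.single j X) * E2 1 (sg j B) = E2 0 (Pi.single j (A * X * B)) := by
  rw [E2_mul, E2_mul, mul_zero, zero_mul]
  congr 1
  funext k
  by_cases h : k = j
  · subst h
    rw [sg_same, sg_same, Pi.single_eq_same, Pi.single_eq_same]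
  · rw [sg_ne h, sg_ne h, Pi.single_eq_of_ne h, Pi.single_eq_of_ne h, one_mul, mul_one]

/-- stability under conjugation by symplectic matrices -/
def CS (T : Set (Matrix (I2 B₀ n N) (I2 B₀ n N) ℂ)) : Prop :=
  ∀ g h : Fin N → Matrix (Fin n) (Fin n) ℂ, (∀ j, g j ∈ SpS ℂ n) → (∀ j, h j ∈ SpS ℂ n) → (∀ j, g j * h j = 1) →
    ∀ w, fl w ∈ LL T → fl (E2 1 g * w * E2 1 h) ∈ LL T

/-- one nilpotent element -/
theorem EE_mem_of2 (hC : CS T) {w₀ : Matrix B₀ B₀ ℂ} {β : Fin N → Matrix (Fin n) (Fin n) ℂ}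
    (hβ : fl (E2 w₀ β) ∈ LL T) (j : Fin N) {v : Fin n → ℂ} (hv : v ⬝ᵥ (β j *ᵥ (jm ℂ n *ᵥ v)) ≠ 0) : EE v ∈ LB T j := by
  have h1 : ∀ s : ℂ, TV v s * β j * TV v (-s) - β j ∈ LB T j := by
    intro s
    have h2 := hC _ _ (sg_mem j v s) (sg_mem j v (-s)) (sg_inv j v s) _ hβ
    rw [s2_conj j _ _ w₀ β, fl_add] at h2
    exact (Submodule.add_mem_iff_right _ hβ).1 h2
  have h3 := Submodule.add_mem _ (h1 1) (h1 (-1))
  have h4 : TV v 1 * β j * TV v (-1) - β j + (TV v (-1) * β j * TV v (- -1) - β j) =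
      (-2 * (v ⬝ᵥ (β j *ᵥ (jm ℂ n *ᵥ v)))) • EE v := by
    rw [mul_smul, ← EE_mid]
    simp only [TV_EE, neg_neg, one_smul, neg_smul]
    rw [two_smul]
    noncomm_ring
  rw [h4] at h3
  exact (Submodule.smul_mem_iff _ (mul_ne_zero (by norm_num) hv)).1 h3

/-- all nilpotent elements -/
theorem EE_all2 (hn : Even n) (hC : CS T) (j : Fin N) {v : Fin n → ℂ} (hv0 : v ≠ 0) (hv : EE v ∈ LB T j)
    (u : Fin n → ℂ) : EE u ∈ LB T j := by
  have hS : ∀ (x w : Fin n → ℂ) (s : ℂ), EE x ∈ LB T j → EE (x + (s * om w x) • w) ∈ LB T j := by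
    intro x w s hx
    have h2 := hC _ _ (sg_mem j w s) (sg_mem j w (-s)) (sg_inv j w s) _ (mem_LB.1 hx)
    rw [s2_conj_single, EE_conj] at h2
    exact h2
  have step : ∀ x y : Fin n → ℂ, om y x ≠ 0 → EE x ∈ LB T j → EE y ∈ LB T j := by
    intro x y hxy hx
    have h1 := hS x (y - x) (om y x)⁻¹ hx
    have h2 : om (y - x) x = om y x := by rw [om_sub_left, om_self, sub_zero]
    rw [h2, inv_mul_cancel₀ hxy, one_smul, add_sub_cancel] at h1
    exact h1
  by_cases hu : u = 0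
  · rw [hu]
    have : EE (0 : Fin n → ℂ) = 0 := by unfold EE; simp
    rw [this]
    exact Submodule.zero_mem _
  obtain ⟨z, hz1, hz2⟩ : ∃ z, om v z ≠ 0 ∧ om u z ≠ 0 := by
    obtain ⟨z1, h1⟩ : ∃ z, om v z ≠ 0 := by
      by_contra hcon
      push Not at hcon
      exact hv0 (om_nondeg hn hcon)
    obtain ⟨z2, h2⟩ : ∃ z, om u z ≠ 0 := by
      by_contra hcon
      push Not at hcon
      exact hu (om_nondeg hn hcon)
    by_cases h3 : om u z1 = 0
    · by_cases h4 : om v z2 = 0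
      · refine ⟨z1 + z2, ?_, ?_⟩
        · rw [om_add, h4, add_zero]; exact h1
        · rw [om_add, h3, zero_add]; exact h2
      · exact ⟨z2, h4, h2⟩
    · exact ⟨z1, h1, h3⟩
  refine step z u hz2 (step v z ?_ hv)
  rw [om_skew]
  exact neg_ne_zero.2 hz1

theorem sp_tor {lam : ℂ} (hc : (c, lam) ∈ Tor Q) {h : Fin N → Matrix (Fin n) (Fin n) ℂ} (hh : ∀ j, h j ∈ SpS ℂ n) :
    ((fun j => h j * c j), lam) ∈ Tor Q := by
  refine ⟨hc.1, fun j => ?_⟩
  have h1 := hc.2 j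
  have h2 : h j * jm ℂ n * (h j)ᵀ = jm ℂ n := hh j
  simp only at h1 ⊢
  rw [transpose_mul]
  calc h j * c j * Q j * ((c j)ᵀ * (h j)ᵀ) = h j * (c j * Q j * (c j)ᵀ) * (h j)ᵀ := by
        simp only [Matrix.mul_assoc]
    _ = lam • jm ℂ n := by rw [h1, Matrix.mul_smul, Matrix.smul_mul, h2]

/-- the relations of degree two -/
def RQ (K : Subfield ℂ) (Q : Fin N → Matrix (Fin n) (Fin n) ℂ) (c₀ : Matrix B₀ B₀ ℂ) (b₀ : B₀)
    (c : Fin N → Matrix (Fin n) (Fin n) ℂ) : Prop :=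
  ∀ (A : Matrix (I2 B₀ n N) (I2 B₀ n N) ℂ) (u : I2 B₀ n N × I2 B₀ n N → ℂ), (∀ i j, A i j ∈ K) → (∀ b, u b ∈ K) →
    ∑ b, u b * fl ((E2 c₀ c)⁻¹ * A * E2 c₀ c) b = 0 →
    ∀ X, (X, c₀ b₀ b₀) ∈ Tor Q → ∑ b, u b * fl ((E2 c₀ X)⁻¹ * A * E2 c₀ X) b = 0

theorem cstab2 (hT : IsSubtorsor K T) (hc : (c, c₀ b₀ b₀) ∈ Tor Q) (hcT : E2 c₀ c ∈ T) (hq : RQ K Q c₀ b₀ c) : CS T := by
  intro g h hg hh hgh w hw
  have hbd1 : E2 (1 : Matrix B₀ B₀ ℂ) g * E2 1 h = 1 := by
    rw [E2_mul, one_mul, ← E2_one]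
    congr 1
    funext j
    exact hgh j
  set x : Fin N → Matrix (Fin n) (Fin n) ℂ := fun j => h j * c j with hx
  have hxT : (x, c₀ b₀ b₀) ∈ Tor Q := sp_tor hc hh
  have h3 : fl ((E2 c₀ x)⁻¹ * w * E2 c₀ x) ∈ RR T :=
    conj_of_rel hT hcT (fun A u hA hu h4 => hq A u hA hu h4 x hxT) hw
  have h7 := conj_mem' hT hcT h3
  have hxe : E2 c₀ x = E2 1 h * E2 c₀ c := by rw [E2_mul, one_mul]
  have hxi : (E2 c₀ x)⁻¹ = (E2 c₀ c)⁻¹ * E2 1 g := by
    rw [hxe, Matrix.mul_inv_rev]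
    congr 1
    exact inv_eq_left_inv hbd1
  rw [hxi, hxe] at h7
  have h8 : E2 c₀ c * ((E2 c₀ c)⁻¹ * E2 1 g * w * (E2 1 h * E2 c₀ c)) * (E2 c₀ c)⁻¹ = E2 1 g * w * E2 1 h := by
    have h9 := mul_inv' hT hcT
    calc E2 c₀ c * ((E2 c₀ c)⁻¹ * E2 1 g * w * (E2 1 h * E2 c₀ c)) * (E2 c₀ c)⁻¹ =
        (E2 c₀ c * (E2 c₀ c)⁻¹) * (E2 1 g * w * E2 1 h) * (E2 c₀ c * (E2 c₀ c)⁻¹) := by simp only [Matrix.mul_assoc]
      _ = E2 1 g * w * E2 1 h := by rw [h9, Matrix.one_mul, Matrix.mul_one]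
  rw [h8] at h7
  exact h7

/-- the logarithmic derivatives -/
theorem ld_mem2 (hn : Even n) (hT : IsSubtorsor K T) {x : Matrix B₀ B₀ ℂ} (hx : IsUnit x)
    {X : Fin N → Matrix (Fin n) (Fin n) ℂ} {lam : ℂ} (hX : (X, lam) ∈ Tor Q) (hxT : E2 x X ∈ T)
    (D : Derivation K ℂ ℂ) : fl (E2 (x.map D * x⁻¹) (ld D X)) ∈ LL T := by
  have h1 := logder_mem hT D hxT
  rw [E2_inv hx fun j => (tor_det hn hX.1 (hX.2 j)).1] at h1
  have h2 : (E2 x X).map D = E2 (x.map D) (fun j => (X j).map D) := E2_map D x X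
  rw [h2, E2_mul] at h1
  exact h1

theorem s2_exp (j : Fin N) (v : Fin n → ℂ) (s : ℂ) :
    E2 (1 : Matrix B₀ B₀ ℂ) (sg j (TV v s)) = 1 + s • E2 0 (Pi.single j (EE v)) := by
  rw [← E2_one, E2_smul, E2_add, smul_zero, add_zero]
  congr 1
  funext k
  by_cases h : k = j
  · subst h
    rw [sg_same, Pi.add_apply, Pi.smul_apply, Pi.single_eq_same]
    rfl
  · rw [sg_ne h, Pi.add_apply, Pi.smul_apply, Pi.single_eq_of_ne h, smul_zero, add_zero]
    rfl

/-- the subtorsor is stable under symplectic matrices in one block -/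
theorem sg_stab2 (hn : Even n) (hT : IsSubtorsor K T) (hE : ∀ j u, EE u ∈ LB T j) (j : Fin N)
    {g : Matrix (Fin n) (Fin n) ℂ} (hg : g ∈ SpS ℂ n) {x : Matrix (I2 B₀ n N) (I2 B₀ n N) ℂ} (hx : x ∈ T) :
    E2 1 (sg j g) * x ∈ T := by
  let S : Submonoid (Matrix (Fin n) (Fin n) ℂ) :=
    { carrier := {g | ∀ x ∈ T, E2 1 (sg j g) * x ∈ T}
      one_mem' := by
        intro x hx
        have : sg j (1 : Matrix (Fin n) (Fin n) ℂ) = 1 := by
          unfold sg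
          exact Function.update_eq_self j (1 : Fin N → Matrix (Fin n) (Fin n) ℂ)
        rw [this, E2_one, Matrix.one_mul]
        exact hx
      mul_mem' := by
        intro a b ha hb x hx
        have h1 : E2 (1 : Matrix B₀ B₀ ℂ) (sg j (a * b)) = E2 1 (sg j a) * E2 1 (sg j b) := by
          rw [E2_mul, one_mul]
          congr 1
          funext k
          by_cases h : k = j
          · subst h
            rw [sg_same, sg_same, sg_same]
          · rw [sg_ne h, sg_ne h, sg_ne h, one_mul]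
        rw [h1, Matrix.mul_assoc]
        exact ha _ (hb x hx) }
  have hS : ∀ v s, TV v s ∈ S := by
    intro v s x hx
    rw [s2_exp]
    refine exp_nil hT ?_ (hE j v) hx s
    rw [E2_mul, mul_zero, ← E2_zero]
    congr 1
    funext k
    by_cases h : k = j
    · subst h
      rw [Pi.single_eq_same, EE_sq]
      rfl
    · rw [Pi.single_eq_of_ne h, mul_zero]
      rfl
  exact sp_gen hn S hS g hg x hx

theorem bd_stab2 (hn : Even n) (hT : IsSubtorsor K T) (hE : ∀ j u, EE u ∈ LB T j)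
    {g : Fin N → Matrix (Fin n) (Fin n) ℂ} (hg : ∀ j, g j ∈ SpS ℂ n)
    {x : Matrix (I2 B₀ n N) (I2 B₀ n N) ℂ} (hx : x ∈ T) : E2 1 g * x ∈ T := by
  have key : ∀ s : Finset (Fin N), E2 1 (fun j => if j ∈ s then g j else 1) * x ∈ T := by
    intro s
    induction s using Finset.induction_on with
    | empty =>
      have : (fun j : Fin N => if j ∈ (∅ : Finset (Fin N)) then g j else 1) = 1 := by
        funext j
        simp
      rw [this, E2_one, Matrix.one_mul]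
      exact hx
    | insert j s hj ih =>
      have h1 := sg_stab2 hn hT hE j (hg j) ih
      rw [← Matrix.mul_assoc, E2_mul, one_mul] at h1
      have h2 : (fun k => if k ∈ insert j s then g k else 1) =
          fun k => sg j (g j) k * (if k ∈ s then g k else 1) := by
        funext k
        by_cases h : k = j
        · subst h
          rw [sg_same, if_pos (Finset.mem_insert_self _ _), if_neg hj, mul_one]
        · rw [sg_ne h, one_mul]
          simp [Finset.mem_insert, h]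
      rw [h2]
      exact h1
  have h1 := key Finset.univ
  simpa using h1

end Pool.Agent.Y123.SR
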