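import Pool.Agent.Y123.SR.R2

/-!
# Sums with a fixed object: transfer of relations, and the exclusion of finite groups
-/

set_option autoImplicit false
set_option linter.unusedSectionVars false

open Matrix

namespace Pool.Agent.Y123.SR

open Pool.Agent.TH127.PT Pool.Agent.Y118.HP Pool.Agent.Y123.ST Pool.Agent.TH119.DR

variable {n N : ℕ} {K : Subfield ℂ} {Q c : Fin N → Matrix (Fin n) (Fin n) ℂ}

/-- relations of bounded degree, which vanish on a set stable under automorphisms, hold where all relations of `c` hold -/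
theorem transfer' {𝒳 : Set (Fin N → Matrix (Fin n) (Fin n) ℂ)}
    (h𝒳 : ∀ σ : ℂ ≃+* ℂ, (∀ x ∈ K, σ x = x) → ∀ X ∈ 𝒳, (fun j => (X j).map σ) ∈ 𝒳) (hc : c ∈ 𝒳) {d : ℕ}
    {R : (Fin N → Matrix (Fin n) (Fin n) ℂ) → Prop}
    (hr : ∀ P : MvPolynomial (Fin N × Fin n × Fin n) ℂ, (∀ m, P.coeff m ∈ K) → P.totalDegree ≤ d →
      MvPolynomial.eval (cd c) P = 0 → ∀ X, R X → MvPolynomial.eval (cd X) P = 0)
    {F : (Fin N → Matrix (Fin n) (Fin n) ℂ) → ℂ} (hF : PF d F) (hv : ∀ X ∈ 𝒳, F X = 0) :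
    ∀ X, R X → F X = 0 := by
  classical
  obtain ⟨P, hP, hPF⟩ := hF
  intro x hx
  rw [hPF]
  -- polynomials with the monomials of `P`
  let poly : (P.support → ℂ) →ₗ[ℂ] MvPolynomial (Fin N × Fin n × Fin n) ℂ :=
    { toFun := fun a => ∑ m : P.support, MvPolynomial.monomial m.1 (a m)
      map_add' := by
        intro a b
        simp only [Pi.add_apply, map_add, Finset.sum_add_distrib]
      map_smul' := by
        intro z a
        simp only [Pi.smul_apply, smul_eq_mul, RingHom.id_apply, Finset.smul_sum, MvPolynomial.smul_monomial] }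
  have hpoly : ∀ a, poly a = ∑ m : P.support, MvPolynomial.monomial m.1 (a m) := fun a => rfl
  have hev : ∀ a (y : Fin N × Fin n × Fin n → ℂ), MvPolynomial.eval y (poly a) =
      ∑ m : P.support, a m * m.1.prod fun i e => y i ^ e := by
    intro a y
    rw [hpoly, map_sum]
    refine Finset.sum_congr rfl fun m _ => ?_
    rw [MvPolynomial.eval_monomial]
  let W : Submodule ℂ (P.support → ℂ) :=
    { carrier := {a | ∀ X ∈ 𝒳, MvPolynomial.eval (cd X) (poly a) = 0}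
      zero_mem' := by
        intro X _
        rw [map_zero, map_zero]
      add_mem' := by
        intro a b ha hb X hX
        rw [map_add, map_add, ha X hX, hb X hX, add_zero]
      smul_mem' := by
        intro z a ha X hX
        rw [map_smul, MvPolynomial.smul_eval, ha X hX, mul_zero] }
  have hW : DefOver K W := by
    refine Pool.Agent.TH119.MX.defOver_of_aut W fun σ hσ a ha X hX => ?_
    have h1 : (fun j => (X j).map σ.symm) ∈ 𝒳 := h𝒳 σ.symm (symm_fix hσ) X hX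
    have h2 := congrArg σ (ha _ h1)
    rw [map_zero, hev, map_sum] at h2
    rw [hev, ← h2]
    refine Finset.sum_congr rfl fun m _ => ?_
    rw [map_mul]
    congr 1
    rw [Finsupp.prod, Finsupp.prod, map_prod]
    refine Finset.prod_congr rfl fun i _ => ?_
    rw [map_pow]
    congr 1
    show X i.1 i.2.1 i.2.2 = σ (((X i.1).map σ.symm) i.2.1 i.2.2)
    simp
  have hPP : poly (fun m => P.coeff m.1) = P := by
    rw [hpoly]
    conv_rhs => rw [P.as_sum]
    exact Finset.sum_coe_sort P.support (fun m => MvPolynomial.monomial m (P.coeff m))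
  have hPW : (fun m : P.support => P.coeff m.1) ∈ W := by
    intro X hX
    rw [hPP, ← hPF]
    exact hv X hX
  have key : ∀ a ∈ Submodule.span ℂ {w | w ∈ W ∧ ∀ a, w a ∈ K}, MvPolynomial.eval (cd x) (poly a) = 0 := by
    intro a ha
    induction ha using Submodule.span_induction with
    | mem a ha =>
      obtain ⟨h1, h2⟩ := ha
      refine hr (poly a) ?_ ?_ (h1 c hc) x hx
      · intro m
        rw [hpoly, MvPolynomial.coeff_sum]
        refine Subfield.sum_mem _ fun m' _ => ?_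
        rw [MvPolynomial.coeff_monomial]
        split_ifs
        · exact h2 _
        · exact K.zero_mem
      · rw [hpoly]
        refine (MvPolynomial.totalDegree_finset_sum _ _).trans (Finset.sup_le fun m _ => ?_)
        refine (MvPolynomial.totalDegree_monomial_le _ _).trans ?_
        exact (MvPolynomial.le_totalDegree m.2).trans hP
    | zero => rw [map_zero, map_zero]
    | add a b _ _ ha hb => rw [map_add, map_add, ha, hb, add_zero]
    | smul z a _ ha => rw [map_smul, MvPolynomial.smul_eval, ha, mul_zero]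
  have := key _ (hW hPW)
  rwa [hPP] at this

/-- finiteness of the classes of a submatrix -/
theorem finite_class' {B : Type} [Fintype B] [DecidableEq B] {T : Set (Matrix B B ℂ)} (hT : IsSubtorsor K T) {n : ℕ}
    (ι : Fin n → B)
    (hTb : ∀ y ∈ T, y.submatrix ι ι ≠ 0 ∧ ∃ (ν : ℂ) (a : Matrix (Fin n) (Fin n) ℂ), (∀ i k, IsAlgebraic ℚ (a i k)) ∧
      y.submatrix ι ι = ν • a) :
    ∃ S : Set (Matrix (Fin n) (Fin n) ℂ), S.Finite ∧ ∀ y ∈ T, ∃ A ∈ S, ∃ ν : ℂ, y.submatrix ι ι = ν • A := by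
  classical
  have hfin : (VI T).minimalPrimes.Finite := Ideal.finite_minimalPrimes_of_isNoetherianRing _ _
  have hcount : Countable {α : ℂ // IsAlgebraic ℚ α} := (Algebraic.countable ℚ ℂ).to_subtype
  have hbl : ∀ (y : Matrix B B ℂ) (p q : Fin n), fl y (ι p, ι q) = y.submatrix ι ι p q := fun y p q => rfl
  -- each component
  have key : ∀ P ∈ (VI T).minimalPrimes, ∃ A : Matrix (Fin n) (Fin n) ℂ, ∀ y ∈ T,
      (∀ f ∈ P, MvPolynomial.eval (fl y) f = 0) → ∃ ν : ℂ, y.submatrix ι ι = ν • A := by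
    intro P hP
    -- a coordinate which is not in the ideal
    have h1 : ∃ p q : Fin n, (MvPolynomial.X (ι p, ι q) : MvPolynomial (B × B) ℂ) ∉ P := by
      by_contra hcon
      push Not at hcon
      have hprime : P.IsPrime := hP.1.1
      -- a point on the component
      obtain ⟨y, hy1, hy2⟩ := exists_point P (fun _ : Unit => dt B) (fun _ => dt_notMem hT hP)
      have hle : VI T ≤ P := hP.1.2
      obtain ⟨I, hI1, hI2⟩ := hT.algebraic
      have hyT : um y ∈ T := by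
        rw [hI2]
        refine ⟨?_, fun p hp => ?_⟩
        · rw [Matrix.isUnit_iff_isUnit_det, isUnit_iff_ne_zero, ← eval_dt, fl_um]
          exact hy2 ()
        · exact hy1 p (hle fun x hx => ((hI2 x).1 hx).2 p hp)
      apply (hTb _ hyT).1
      ext p q
      rw [← hbl, fl_um]
      have := hy1 _ (hcon p q)
      rwa [MvPolynomial.eval_X] at this
    obtain ⟨p, q, hpq⟩ := h1
    have h2 : ∀ p' q' : Fin n, ∃ α : ℂ, (MvPolynomial.X (ι p', ι q') -
        MvPolynomial.C α * MvPolynomial.X (ι p, ι q) : MvPolynomial (B × B) ℂ) ∈ P := by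
      intro p' q'
      by_contra hcon
      push Not at hcon
      obtain ⟨y, hy, hy2⟩ := exists_pt hT hP (fun o : Option {α : ℂ // IsAlgebraic ℚ α} =>
        o.elim (MvPolynomial.X (ι p, ι q)) (fun α => MvPolynomial.X (ι p', ι q') -
          MvPolynomial.C α.1 * MvPolynomial.X (ι p, ι q))) (by
        rintro (_ | α)
        · exact hpq
        · exact hcon α.1)
      obtain ⟨hX0, ν, a, ha, hXa⟩ := hTb _ hy
      have h3 := hy2 none
      simp only [Option.elim_none, MvPolynomial.eval_X] at h3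
      rw [hbl, hXa, Matrix.smul_apply, smul_eq_mul] at h3
      have hν : ν ≠ 0 := left_ne_zero_of_mul h3
      have hapq : a p q ≠ 0 := right_ne_zero_of_mul h3
      have h4 := hy2 (some ⟨a p' q' / a p q, (ha p' q').mul (ha p q).inv⟩)
      simp only [Option.elim_some, map_sub, map_mul, MvPolynomial.eval_X, MvPolynomial.eval_C] at h4
      rw [hbl, hbl, hXa, Matrix.smul_apply, Matrix.smul_apply, smul_eq_mul, smul_eq_mul] at h4
      apply h4
      field_simp
      ring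
    choose α hα using h2
    refine ⟨Matrix.of α, fun y hy hXP => ⟨y.submatrix ι ι p q, ?_⟩⟩
    ext p' q'
    have h3 := hXP _ (hα p' q')
    rw [map_sub, map_mul, MvPolynomial.eval_X, MvPolynomial.eval_X, MvPolynomial.eval_C, hbl, hbl, sub_eq_zero] at h3
    rw [h3, Matrix.smul_apply, Matrix.of_apply, smul_eq_mul, mul_comm]
  choose! A hA using key
  refine ⟨A '' (VI T).minimalPrimes, hfin.image _, fun y hy => ?_⟩
  -- a component which contains the point
  have hker : VI T ≤ RingHom.ker (MvPolynomial.eval (fl y) : MvPolynomial (B × B) ℂ →+* ℂ) := by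
    intro P hP
    exact hP _ hy
  have hkp : (RingHom.ker (MvPolynomial.eval (fl y) : MvPolynomial (B × B) ℂ →+* ℂ)).IsPrime := RingHom.ker_isPrime _
  obtain ⟨P, hP, hPk⟩ := Ideal.exists_minimalPrimes_le hker
  exact ⟨A P, ⟨P, hP, rfl⟩, hA P hP y hy fun f hf => hPk hf⟩

/-- the symplectic matrices which are quotients of elements of `𝒳` in the block `j`, up to a scalar -/
def Gr' (𝒳 : Set (Fin N → Matrix (Fin n) (Fin n) ℂ)) (j : Fin N) : Set (Matrix (Fin n) (Fin n) ℂ) :=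
  {g | g ∈ SpS ℂ n ∧ ∃ X ∈ 𝒳, ∃ Y ∈ 𝒳, ∃ ν : ℂ, g * Y j = ν • X j}

/-- **Jordan's theorem excludes finite groups** -/
theorem no_alg' (n : ℕ) (hn : Even n) (hn0 : 0 < n) : ∃ d : ℕ, ∀ (N : ℕ)
    (𝒳 : Set (Fin N → Matrix (Fin n) (Fin n) ℂ)) (Q c : Fin N → Matrix (Fin n) (Fin n) ℂ) (lam : ℂ) (j : Fin N),
    (c, lam) ∈ Tor Q → c ∈ 𝒳 → (∀ X ∈ 𝒳, ∃ mu, (X, mu) ∈ Tor Q) →
    (∀ X ∈ 𝒳, ∀ Y ∈ 𝒳, ∀ Z ∈ 𝒳, (fun i => X i * (Y i)⁻¹ * Z i) ∈ 𝒳) →
    (∃ S : Set (Matrix (Fin n) (Fin n) ℂ), S.Finite ∧ ∀ X ∈ 𝒳, ∃ A ∈ S, ∃ ν : ℂ, X j = ν • A) →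
    (∀ F : (Fin N → Matrix (Fin n) (Fin n) ℂ) → ℂ, PF d F → (∀ X ∈ 𝒳, F X = 0) → ∀ X, (X, lam) ∈ Tor Q → F X = 0) →
    False := by
  classical
  obtain ⟨J, hJ⟩ := Jor.jordan n
  refine ⟨2 * J * J * J, ?_⟩
  intro N 𝒳 Q c lam j hc hcT htor hmul hfc htr
  have hdetX : ∀ X ∈ 𝒳, IsUnit (X j).det := by
    intro X hX
    obtain ⟨mu, h1⟩ := htor X hX
    exact (tor_det hn h1.1 (h1.2 j)).1
  obtain ⟨S, hS, hSX⟩ := hfc
  have hfin : (Gr' 𝒳 j).Finite := by
    have h1 : (⋃ A ∈ S, ⋃ A' ∈ {A' | A' ∈ S ∧ IsUnit A'.det},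
        {g : Matrix (Fin n) (Fin n) ℂ | g ∈ SpS ℂ n ∧ ∃ ρ : ℂ, g * A' = ρ • A}).Finite := by
      refine hS.biUnion fun A _ => Set.Finite.biUnion (hS.subset fun A' h => h.1) fun A' hA' => ?_
      exact sp_pair_finite hn hn0 A A' hA'.2
    refine h1.subset ?_
    rintro g ⟨hg, X, hX, Y, hY, ν, hν⟩
    obtain ⟨A, hA, μ, hμ⟩ := hSX X hX
    obtain ⟨A', hA', μ', hμ'⟩ := hSX Y hY
    have hYd := hdetX Y hY
    rw [hμ', det_smul] at hYd
    have hA'd : IsUnit A'.det := isUnit_of_mul_isUnit_right hYd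
    have hμ0 : μ' ≠ 0 := by
      rintro rfl
      rw [Fintype.card_fin, zero_pow hn0.ne', zero_mul] at hYd
      exact not_isUnit_zero hYd
    simp only [Set.mem_iUnion]
    refine ⟨A, hA, A', ⟨hA', hA'd⟩, hg, ν * μ / μ', ?_⟩
    rw [hμ, hμ', Matrix.mul_smul, smul_smul] at hν
    have h2 : g * A' = μ'⁻¹ • (μ' • (g * A')) := by rw [smul_smul, inv_mul_cancel₀ hμ0, one_smul]
    rw [h2, hν, smul_smul]
    congr 1
    field_simp
  -- the group
  have hgroup := hJ (Gr' 𝒳 j) hfin ⟨SpS_one, c, hcT, c, hcT, 1, by rw [Matrix.one_mul, one_smul]⟩ (by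
    rintro g ⟨hg, X, hX, Y, hY, ν, hν⟩ h ⟨hh, Z, hZ, W, hW, ν', hν'⟩
    refine ⟨SpS_mul hg hh, _, hmul X hX Y hY Z hZ, W, hW, ν' * ν, ?_⟩
    have hYY : Y j * (Y j)⁻¹ = 1 := mul_nonsing_inv _ (hdetX Y hY)
    rw [Matrix.mul_assoc, hν', Matrix.mul_smul]
    calc ν' • (g * Z j) = ν' • (g * (Y j * (Y j)⁻¹) * Z j) := by rw [hYY, Matrix.mul_one]
      _ = ν' • ((g * Y j) * (Y j)⁻¹ * Z j) := by simp only [Matrix.mul_assoc]
      _ = (ν' * ν) • (X j * (Y j)⁻¹ * Z j) := by rw [hν, Matrix.smul_mul, Matrix.smul_mul, smul_smul]) (by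
    rintro g ⟨hg, -⟩
    exact sp_det hn hg) (by
    rintro g ⟨hg, X, hX, Y, hY, ν, hν⟩
    have hgd := sp_det hn hg
    have hν0 : ν ≠ 0 := by
      rintro rfl
      rw [zero_smul] at hν
      have h2 : IsUnit (g * Y j).det := by rw [det_mul]; exact hgd.mul (hdetX Y hY)
      exact mat_ne_zero hn0 h2 hν
    refine ⟨sp_inv hn hg, Y, hY, X, hX, ν⁻¹, ?_⟩
    have h1 : X j = ν⁻¹ • (g * Y j) := by rw [hν, smul_smul, inv_mul_cancel₀ hν0, one_smul]
    rw [h1, Matrix.mul_smul, ← Matrix.mul_assoc, nonsing_inv_mul _ hgd, Matrix.one_mul])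
  -- special matrices
  obtain ⟨u, v, huv⟩ : ∃ u v : Fin n → ℂ, om u v ≠ 0 := by
    by_contra hcon
    push Not at hcon
    have h1 := om_nondeg hn (u := Pi.single ⟨0, hn0⟩ 1) (fun x => hcon _ x)
    have h2 := congrFun h1 ⟨0, hn0⟩
    rw [Pi.single_eq_same] at h2
    exact one_ne_zero h2
  have hen : ∀ p : ℕ × ℕ, ∃ e : Fin n × Fin n, 1 ≤ p.1 → 1 ≤ p.2 →
      (TV u 1 ^ p.1 * TV v 1 ^ p.2 - TV v 1 ^ p.2 * TV u 1 ^ p.1) e.1 e.2 ≠ 0 := by
    intro p
    by_cases hp : 1 ≤ p.1 ∧ 1 ≤ p.2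
    · have h1 := TV_not_comm huv hp.1 hp.2
      by_contra hcon
      push Not at hcon
      apply h1
      rw [← sub_eq_zero]
      ext a b
      obtain ⟨-, -, h2⟩ := hcon (a, b)
      exact h2
    · refine ⟨(⟨0, hn0⟩, ⟨0, hn0⟩), fun h1 h2 => absurd ⟨h1, h2⟩ hp⟩
  choose en hen using hen
  -- the relation
  have step0 : ∀ X ∈ 𝒳, ∀ Y ∈ 𝒳, ∀ Z ∈ 𝒳, Pf Q j J en X Y Z = 0 := by
    intro X hX Y hY Z hZ
    obtain ⟨μ1, h1⟩ := htor X hX
    obtain ⟨μ2, h2⟩ := htor Y hY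
    obtain ⟨μ3, h3⟩ := htor Z hZ
    obtain ⟨g, ν, s, hg, hgZ, hgs⟩ := quot_sp hn h1 h3 j
    obtain ⟨h, ν', s', hh, hhZ, hhs⟩ := quot_sp hn h2 h3 j
    obtain ⟨k, l, hk, hl, hkl⟩ := hgroup g ⟨hg, X, hX, Z, hZ, ν, hgZ⟩ h ⟨hh, Y, hY, Z, hZ, ν', hhZ⟩
    unfold Pf
    refine Finset.prod_eq_zero (i := (k, l)) ?_ ?_
    · rw [Finset.mem_product, Finset.mem_Icc, Finset.mem_Icc]
      exact ⟨hk, hl⟩
    · unfold Gf Mf
      simp only
      rw [hgs, hhs, smul_pow, smul_pow, smul_mul_smul_comm, smul_mul_smul_comm, hkl, mul_comm (s ^ k), sub_self]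
      rfl
  have step1 : ∀ Y ∈ 𝒳, ∀ Z ∈ 𝒳, ∀ x, (x, lam) ∈ Tor Q → Pf Q j J en x Y Z = 0 :=
    fun Y hY Z hZ => htr _ (Pf_X j J en Y Z) fun X hX => step0 X hX Y hY Z hZ
  have step2 : ∀ Z ∈ 𝒳, ∀ x, (x, lam) ∈ Tor Q → ∀ y, (y, lam) ∈ Tor Q → Pf Q j J en x y Z = 0 := by
    intro Z hZ x hx
    exact htr _ (Pf_Y j J en x Z) fun Y hY => step1 Y hY Z hZ x hx
  -- special points
  have hsp : ∀ g ∈ SpS ℂ n, ((fun i => if i = j then g * c i else c i), lam) ∈ Tor Q := by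
    intro g hg
    refine ⟨hc.1, fun i => ?_⟩
    have h1 := hc.2 i
    simp only at h1 ⊢
    by_cases hi : i = j
    · rw [if_pos hi, transpose_mul]
      have h2 : g * jm ℂ n * gᵀ = jm ℂ n := hg
      calc g * c i * Q i * ((c i)ᵀ * gᵀ) = g * (c i * Q i * (c i)ᵀ) * gᵀ := by simp only [Matrix.mul_assoc]
        _ = lam • jm ℂ n := by rw [h1, Matrix.mul_smul, Matrix.smul_mul, h2]
    · rw [if_neg hi]
      exact h1
  have hMf : ∀ g : Matrix (Fin n) (Fin n) ℂ, Mf Q j (fun i => if i = j then g * c i else c i) c = lam • g := by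
    intro g
    unfold Mf
    simp only [if_true]
    have h1 := hc.2 j
    simp only at h1
    calc g * c j * Q j * (c j)ᵀ * (jm ℂ n)⁻¹ = g * (c j * Q j * (c j)ᵀ) * (jm ℂ n)⁻¹ := by
          simp only [Matrix.mul_assoc]
      _ = lam • g := by
        rw [h1, Matrix.mul_smul, Matrix.smul_mul, Matrix.mul_assoc, mul_nonsing_inv _ (jm_det hn).isUnit, Matrix.mul_one]
  have h0 := step2 c hcT _ (hsp _ (TV_mem u 1)) _ (hsp _ (TV_mem v 1))
  unfold Pf at h0
  rw [Finset.prod_eq_zero_iff] at h0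
  obtain ⟨p, hp, hp0⟩ := h0
  rw [Finset.mem_product, Finset.mem_Icc, Finset.mem_Icc] at hp
  unfold Gf at hp0
  rw [hMf, hMf, smul_pow, smul_pow, smul_mul_smul_comm, smul_mul_smul_comm, mul_comm (lam ^ p.2), ← smul_sub,
    Matrix.smul_apply, smul_eq_mul] at hp0
  rcases mul_eq_zero.1 hp0 with h1 | h1
  · exact mul_ne_zero (pow_ne_zero _ hc.1) (pow_ne_zero _ hc.1) h1
  · exact hen p hp.1.1 hp.2.1 h1

end Pool.Agent.Y123.SR
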