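import Pool.Agent.Y123.SR.R3

/-!
# Sums with a fixed object: the fibre product
-/

set_option autoImplicit false
set_option linter.unusedSectionVars false

open Matrix

namespace Pool.Agent.Y123.SR

open Pool.Agent.TH127.PT Pool.Agent.Y118.HP Pool.Agent.Y123.ST Pool.Agent.TH119.DR

/-- descent of closed subsets -/
theorem descend {M : Type} [Fintype M] [DecidableEq M] {K : Subfield ℂ} {S : Set (Matrix M M ℂ)}
    (haut : ∀ σ : ℂ ≃+* ℂ, (∀ a ∈ K, σ a = a) → ∀ x ∈ S, x.map σ ∈ S) {y : Matrix M M ℂ}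
    (hy : ∀ p ∈ PK K (M × M), (∀ x ∈ S, MvPolynomial.eval (fl x) p = 0) → MvPolynomial.eval (fl y) p = 0)
    {P : MvPolynomial (M × M) ℂ} (hP : ∀ x ∈ S, MvPolynomial.eval (fl x) P = 0) : MvPolynomial.eval (fl y) P = 0 := by
  classical
  let poly : (P.support → ℂ) →ₗ[ℂ] MvPolynomial (M × M) ℂ :=
    { toFun := fun a => ∑ m : P.support, MvPolynomial.monomial m.1 (a m)
      map_add' := by
        intro a b
        simp only [Pi.add_apply, map_add, Finset.sum_add_distrib]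
      map_smul' := by
        intro z a
        simp only [Pi.smul_apply, smul_eq_mul, RingHom.id_apply, Finset.smul_sum, MvPolynomial.smul_monomial] }
  have hpoly : ∀ a, poly a = ∑ m : P.support, MvPolynomial.monomial m.1 (a m) := fun a => rfl
  have hev : ∀ a (y : M × M → ℂ), MvPolynomial.eval y (poly a) =
      ∑ m : P.support, a m * m.1.prod fun i e => y i ^ e := by
    intro a y
    rw [hpoly, map_sum]
    refine Finset.sum_congr rfl fun m _ => ?_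
    rw [MvPolynomial.eval_monomial]
  let W : Submodule ℂ (P.support → ℂ) :=
    { carrier := {a | ∀ x ∈ S, MvPolynomial.eval (fl x) (poly a) = 0}
      zero_mem' := by
        intro X _
        rw [map_zero, map_zero]
      add_mem' := by
        intro a b ha hb X hX
        rw [map_add, map_add, ha X hX, hb X hX, add_zero]
      smul_mem' := by
        intro z a ha X hX
        rw [map_smul, MvPolynomial.smul_eval, ha X hX, mul_zero] }
  have hW : DefOver K W := by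
    refine Pool.Agent.TH119.MX.defOver_of_aut W fun σ hσ a ha x hx => ?_
    have h1 : x.map σ.symm ∈ S := haut σ.symm (symm_fix hσ) x hx
    have h2 := congrArg σ (ha _ h1)
    rw [map_zero, hev, map_sum] at h2
    rw [hev, ← h2]
    refine Finset.sum_congr rfl fun m _ => ?_
    rw [map_mul]
    congr 1
    rw [Finsupp.prod, Finsupp.prod, map_prod]
    refine Finset.prod_congr rfl fun i _ => ?_
    rw [map_pow]
    congr 1
    show x i.1 i.2 = σ ((x.map σ.symm) i.1 i.2)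
    simp
  have hPP : poly (fun m => P.coeff m.1) = P := by
    rw [hpoly]
    conv_rhs => rw [P.as_sum]
    exact Finset.sum_coe_sort P.support (fun m => MvPolynomial.monomial m (P.coeff m))
  have hPW : (fun m : P.support => P.coeff m.1) ∈ W := by
    intro x hx
    rw [hPP]
    exact hP x hx
  have key : ∀ a ∈ Submodule.span ℂ {w | w ∈ W ∧ ∀ a, w a ∈ K}, MvPolynomial.eval (fl y) (poly a) = 0 := by
    intro a ha
    induction ha using Submodule.span_induction with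
    | mem a ha =>
      obtain ⟨h1, h2⟩ := ha
      refine hy (poly a) ?_ h1
      rw [hpoly]
      refine Subring.sum_mem _ fun m _ => ?_
      exact ⟨MvPolynomial.monomial m.1 ⟨a m, h2 m⟩, by rw [MvPolynomial.map_monomial]; rfl⟩
    | zero => rw [map_zero, map_zero]
    | add a b _ _ ha hb => rw [map_add, map_add, ha, hb, add_zero]
    | smul z a _ ha => rw [map_smul, MvPolynomial.smul_eval, ha, mul_zero]
  have := key _ (hW hPW)
  rwa [hPP] at this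

variable {B₀ : Type} [Fintype B₀] [DecidableEq B₀] {n N : ℕ} {K : Subfield ℂ}
  {T : Set (Matrix (I2 B₀ n N) (I2 B₀ n N) ℂ)} {Q c : Fin N → Matrix (Fin n) (Fin n) ℂ} {c₀ : Matrix B₀ B₀ ℂ} {b₀ : B₀}

/-- diagonal similitudes -/
noncomputable def Ds (n : ℕ) (s : ℂ) : Matrix (Fin n) (Fin n) ℂ := diagonal fun i => if (i : ℕ) % 2 = 1 then s else 1

theorem Ds_J (s : ℂ) : Ds n s * jm ℂ n * (Ds n s)ᵀ = s • jm ℂ n := by
  ext a b
  unfold Ds
  rw [diagonal_transpose, mul_diagonal, diagonal_mul, Matrix.smul_apply, smul_eq_mul]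
  unfold jm
  rw [Matrix.of_apply]
  by_cases h : (a : ℕ) = b + 1 ∨ (b : ℕ) = a + 1
  · rw [if_pos h]
    by_cases h1 : (a : ℕ) % 2 = 1
    · have h2 : ¬ (b : ℕ) % 2 = 1 := by omega
      rw [if_pos h1, if_neg h2, mul_one]
    · have h2 : (b : ℕ) % 2 = 1 := by omega
      rw [if_neg h1, if_pos h2]
      ring
  · rw [if_neg h]
    ring

theorem sec_tor {lam mu : ℂ} (hc : (c, lam) ∈ Tor Q) (hmu : mu ≠ 0) :
    ((fun j => Ds n (mu / lam) * c j), mu) ∈ Tor Q := by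
  refine ⟨hmu, fun j => ?_⟩
  have h1 := hc.2 j
  have h2 : lam ≠ 0 := hc.1
  simp only at h1 ⊢
  rw [transpose_mul]
  calc Ds n (mu / lam) * c j * Q j * ((c j)ᵀ * (Ds n (mu / lam))ᵀ) =
      Ds n (mu / lam) * (c j * Q j * (c j)ᵀ) * (Ds n (mu / lam))ᵀ := by simp only [Matrix.mul_assoc]
    _ = mu • jm ℂ n := by
        rw [h1, Matrix.mul_smul, Matrix.smul_mul, Ds_J, smul_smul, mul_div_cancel₀ _ h2]

/-- two points of the torsor with the same multiplier -/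
theorem quot_sp' (hn : Even n) {X Z : Fin N → Matrix (Fin n) (Fin n) ℂ} {μ : ℂ} (hX : (X, μ) ∈ Tor Q)
    (hZ : (Z, μ) ∈ Tor Q) (j : Fin N) : X j * (Z j)⁻¹ ∈ SpS ℂ n ∧ X j * (Z j)⁻¹ * Z j = X j := by
  have h2 : μ ≠ 0 := hZ.1
  have hXj := hX.2 j
  have hZj := hZ.2 j
  simp only at hXj hZj
  obtain ⟨hdet, hinv⟩ := tor_det hn h2 hZj
  have hzz : (Z j)⁻¹ * Z j = 1 := nonsing_inv_mul _ hdet
  have h5 : (Z j)ᵀ * ((Z j)⁻¹)ᵀ = 1 := by rw [← transpose_mul, hzz, transpose_one]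
  have h6 : (Z j)⁻¹ * jm ℂ n * ((Z j)⁻¹)ᵀ = μ⁻¹ • Q j := by
    have h7 : jm ℂ n = μ⁻¹ • (Z j * Q j * (Z j)ᵀ) := by
      rw [hZj, smul_smul, inv_mul_cancel₀ h2, one_smul]
    rw [h7, Matrix.mul_smul, Matrix.smul_mul]
    congr 1
    calc (Z j)⁻¹ * (Z j * Q j * (Z j)ᵀ) * ((Z j)⁻¹)ᵀ = ((Z j)⁻¹ * Z j) * Q j * ((Z j)ᵀ * ((Z j)⁻¹)ᵀ) := by
          simp only [Matrix.mul_assoc]
      _ = Q j := by rw [hzz, h5, Matrix.one_mul, Matrix.mul_one]
  refine ⟨?_, ?_⟩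
  · show X j * (Z j)⁻¹ * jm ℂ n * (X j * (Z j)⁻¹)ᵀ = jm ℂ n
    rw [transpose_mul]
    have h8 : X j * (Z j)⁻¹ * jm ℂ n * (((Z j)⁻¹)ᵀ * (X j)ᵀ) = X j * ((Z j)⁻¹ * jm ℂ n * ((Z j)⁻¹)ᵀ) * (X j)ᵀ := by
      simp only [Matrix.mul_assoc]
    rw [h8, h6, Matrix.mul_smul, Matrix.smul_mul, hXj, smul_smul, inv_mul_cancel₀ h2, one_smul]
  · rw [Matrix.mul_assoc, hzz, Matrix.mul_one]

/-- relations over `K` of degree at most `d` at `c` hold on the fibre -/
def NR2 (K : Subfield ℂ) (Q : Fin N → Matrix (Fin n) (Fin n) ℂ) (lam : ℂ) (c : Fin N → Matrix (Fin n) (Fin n) ℂ)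
    (d : ℕ) : Prop :=
  ∀ P : MvPolynomial (Fin N × Fin n × Fin n) ℂ, (∀ m, P.coeff m ∈ K) → P.totalDegree ≤ d →
    MvPolynomial.eval (cd c) P = 0 → ∀ X, (X, lam) ∈ Tor Q → MvPolynomial.eval (cd X) P = 0

/-- **the symplectic algebras are in the Lie algebra** -/
theorem all_EE (n : ℕ) (hn : Even n) (hn0 : 0 < n) : ∃ d : ℕ, ∀ (B₀ : Type) [Fintype B₀] [DecidableEq B₀] (b₀ : B₀)
    (N : ℕ) (K : Subfield ℂ) (T : Set (Matrix (I2 B₀ n N) (I2 B₀ n N) ℂ)) (Q c : Fin N → Matrix (Fin n) (Fin n) ℂ)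
    (c₀ : Matrix B₀ B₀ ℂ), (∀ x ∈ K, IsAlgebraic ℚ x) → IsSubtorsor K T → T ⊆ FP Q b₀ {x | IsUnit x} →
    (∀ j a b, Q j a b ∈ K) → (c, c₀ b₀ b₀) ∈ Tor Q → E2 c₀ c ∈ T → RQ K Q c₀ b₀ c → NR2 K Q (c₀ b₀ b₀) c d →
    ∀ j u, EE u ∈ LB T j := by
  obtain ⟨d, hd⟩ := no_alg' n hn hn0
  refine ⟨d, ?_⟩
  intro B₀ _ _ b₀ N K T Q c c₀ hK hT hTF hQ hc hcT hq hr
  have hC : CS T := cstab2 hT hc hcT hq
  intro j
  by_contra hcon
  have hno : ∀ v : Fin n → ℂ, v ≠ 0 → EE v ∉ LB T j := by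
    intro v hv0 hv
    exact hcon (EE_all2 hn hC j hv0 hv)
  -- the blocks are algebraic up to scalars
  have halg : ∀ (x : Matrix B₀ B₀ ℂ) (X : Fin N → Matrix (Fin n) (Fin n) ℂ), E2 x X ∈ T →
      IsUnit x ∧ Cm b₀ x ∧ (X, x b₀ b₀) ∈ Tor Q ∧
      ∃ (ν : ℂ) (a : Matrix (Fin n) (Fin n) ℂ), (∀ i k, IsAlgebraic ℚ (a i k)) ∧ X j = ν • a := by
    intro x X hX
    obtain ⟨x', X', hx', hcm, hXt, hxx⟩ := hTF hX
    obtain ⟨e1, e2⟩ := E2_inj hxx
    subst e1 e2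
    refine ⟨hx', hcm, hXt, ?_⟩
    by_contra hnon
    obtain ⟨D, hD⟩ := exists_ld hn hK hXt j hnon
    obtain ⟨v, hv⟩ := exists_vec hn (ld_rel hn hQ hXt D j) (hD _)
    have hv0 : v ≠ 0 := by
      rintro rfl
      apply hv
      rw [zero_dotProduct]
    exact hno v hv0 (EE_mem_of2 hC (ld_mem2 hn hT hx' hXt hX D) j hv)
  obtain ⟨S, hS, hSX⟩ := finite_class' hT (fun a : Fin n => (Sum.inr (a, j) : I2 B₀ n N)) (by
    intro y hy
    obtain ⟨x, X, hx, hcm, hXt, rfl⟩ := hTF hy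
    have h1 : (E2 x X).submatrix (fun a : Fin n => (Sum.inr (a, j) : I2 B₀ n N)) (fun a => Sum.inr (a, j)) = X j := by
      ext a b
      show blockDiagonal X (a, j) (b, j) = X j a b
      rw [blockDiagonal_apply_eq]
    rw [h1]
    exact ⟨mat_ne_zero hn0 (tor_det hn hXt.1 (hXt.2 j)).1, (halg x X hy).2.2.2⟩)
  refine hd N {X | ∃ x, E2 x X ∈ T} Q c (c₀ b₀ b₀) j hc ⟨c₀, hcT⟩ ?_ ?_ ?_ ?_
  · rintro X ⟨x, hX⟩
    exact ⟨_, (halg x X hX).2.2.1⟩
  · rintro X ⟨x, hX⟩ Y ⟨y, hY⟩ Z ⟨z, hZ⟩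
    obtain ⟨h1, -, h2, -⟩ := halg y Y hY
    refine ⟨x * y⁻¹ * z, ?_⟩
    have h3 := hT.torsor _ hX _ hY _ hZ
    rwa [E2_inv h1 fun i => (tor_det hn h2.1 (h2.2 i)).1, E2_mul, E2_mul] at h3
  · refine ⟨S, hS, ?_⟩
    rintro X ⟨x, hX⟩
    obtain ⟨A, hA, ν, hν⟩ := hSX _ hX
    refine ⟨A, hA, ν, ?_⟩
    rw [← hν]
    ext a b
    show X j a b = blockDiagonal X (a, j) (b, j)
    rw [blockDiagonal_apply_eq]
  · intro F hF hF0
    refine transfer' (K := K) (𝒳 := {X | ∃ x, E2 x X ∈ T}) (c := c) ?_ ⟨c₀, hcT⟩ hr hF hF0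
    rintro σ hσ X ⟨x, hX⟩
    refine ⟨x.map σ, ?_⟩
    rw [← E2_map]
    exact aut_mem hT hσ hX

/-- the points of a subtorsor with the symplectic algebras in the Lie algebra -/
theorem fib_stab (hn : Even n) (hT : IsSubtorsor K T) (hE : ∀ j u, EE u ∈ LB T j) {x : Matrix B₀ B₀ ℂ}
    {X Y : Fin N → Matrix (Fin n) (Fin n) ℂ} {mu : ℂ} (hX : (X, mu) ∈ Tor Q) (hY : (Y, mu) ∈ Tor Q) (hxT : E2 x X ∈ T) :
    E2 x Y ∈ T := by
  have h1 := bd_stab2 hn hT hE (g := fun j => Y j * (X j)⁻¹) (fun j => (quot_sp' hn hY hX j).1) hxT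
  rw [E2_mul, one_mul] at h1
  have h2 : (fun j => Y j * (X j)⁻¹ * X j) = Y := by
    funext j
    exact (quot_sp' hn hY hX j).2
  rwa [h2] at h1

/-- the projection -/
theorem proj_sub (hn : Even n) (hT : IsSubtorsor K T) (hTF : T ⊆ FP Q b₀ {x | IsUnit x}) (hc : (c, c₀ b₀ b₀) ∈ Tor Q)
    (hE : ∀ j u, EE u ∈ LB T j) : IsSubtorsor K {x : Matrix B₀ B₀ ℂ | ∃ X, E2 x X ∈ T} := by
  classical
  have hpt : ∀ (x : Matrix B₀ B₀ ℂ) (X : Fin N → Matrix (Fin n) (Fin n) ℂ), E2 x X ∈ T →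
      IsUnit x ∧ Cm b₀ x ∧ (X, x b₀ b₀) ∈ Tor Q := by
    intro x X hX
    obtain ⟨x', X', hx', hcm, hXt, hxx⟩ := hTF hX
    obtain ⟨e1, e2⟩ := E2_inj hxx
    subst e1 e2
    exact ⟨hx', hcm, hXt⟩
  have hunit : ∀ x ∈ {x : Matrix B₀ B₀ ℂ | ∃ X, E2 x X ∈ T}, IsUnit x := by
    rintro x ⟨X, hX⟩
    exact (hpt x X hX).1
  refine ⟨hunit, ?_, alg_of hunit ?_⟩
  · rintro x ⟨X, hX⟩ y ⟨Y, hY⟩ z ⟨Z, hZ⟩
    obtain ⟨h1, -, h2⟩ := hpt y Y hY
    refine ⟨fun j => X j * (Y j)⁻¹ * Z j, ?_⟩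
    have h3 := hT.torsor _ hX _ hY _ hZ
    rwa [E2_inv h1 fun i => (tor_det hn h2.1 (h2.2 i)).1, E2_mul, E2_mul] at h3
  · intro y hu hy
    have haut : ∀ σ : ℂ ≃+* ℂ, (∀ a ∈ K, σ a = a) → ∀ x ∈ {x : Matrix B₀ B₀ ℂ | ∃ X, E2 x X ∈ T},
        x.map σ ∈ {x : Matrix B₀ B₀ ℂ | ∃ X, E2 x X ∈ T} := by
      rintro σ hσ x ⟨X, hX⟩
      refine ⟨fun j => (X j).map σ, ?_⟩
      rw [← E2_map]
      exact aut_mem hT hσ hX
    have hcm : Cm b₀ y := by
      intro k hk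
      constructor
      · have := descend (K := K) haut hy (P := MvPolynomial.X (b₀, k)) (by
          rintro x ⟨X, hX⟩
          rw [MvPolynomial.eval_X]
          exact ((hpt x X hX).2.1 k hk).1)
        rwa [MvPolynomial.eval_X] at this
      · have := descend (K := K) haut hy (P := MvPolynomial.X (k, b₀)) (by
          rintro x ⟨X, hX⟩
          rw [MvPolynomial.eval_X]
          exact ((hpt x X hX).2.1 k hk).2)
        rwa [MvPolynomial.eval_X] at this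
    have h0 : y b₀ b₀ ≠ 0 := (cm_inv hu hcm).2.1
    set lam := c₀ b₀ b₀ with hlam
    have hsec := sec_tor hc h0
    refine ⟨fun j => Ds n (y b₀ b₀ / lam) * c j, ?_⟩
    obtain ⟨I, hI1, hI2⟩ := hT.algebraic
    rw [hI2]
    refine ⟨E2_isUnit hu fun j => (tor_det hn hsec.1 (hsec.2 j)).1, fun q hq => ?_⟩
    -- the substitution
    let sub : I2 B₀ n N × I2 B₀ n N → MvPolynomial (B₀ × B₀) ℂ := fun s =>
      match s with
      | (Sum.inl a, Sum.inl b) => MvPolynomial.X (a, b)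
      | (Sum.inl _, Sum.inr _) => 0
      | (Sum.inr _, Sum.inl _) => 0
      | (Sum.inr a, Sum.inr b) => if a.2 = b.2 then
          (if (a.1 : ℕ) % 2 = 1 then MvPolynomial.C lam⁻¹ * MvPolynomial.X (b₀, b₀) else 1) *
            MvPolynomial.C (c a.2 a.1 b.1) else 0
    have hsub : ∀ (x : Matrix B₀ B₀ ℂ), (fun s => MvPolynomial.eval (fl x) (sub s)) =
        fl (E2 x (fun j => Ds n (x b₀ b₀ / lam) * c j)) := by
      intro x
      funext s
      obtain ⟨s1, s2⟩ := s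
      rcases s1 with a | ⟨a, j⟩
      · rcases s2 with b | b
        · show MvPolynomial.eval (fl x) (MvPolynomial.X (a, b)) = x a b
          rw [MvPolynomial.eval_X]
          rfl
        · show MvPolynomial.eval (fl x) 0 = 0
          rw [map_zero]
      · rcases s2 with b | ⟨b, k⟩
        · show MvPolynomial.eval (fl x) 0 = 0
          rw [map_zero]
        · show MvPolynomial.eval (fl x) (if j = k then
            (if (a : ℕ) % 2 = 1 then MvPolynomial.C lam⁻¹ * MvPolynomial.X (b₀, b₀) else 1) *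
              MvPolynomial.C (c j a b) else 0) =
            blockDiagonal (fun j => Ds n (x b₀ b₀ / lam) * c j) (a, j) (b, k)
          rw [blockDiagonal_apply]
          by_cases h : j = k
          · subst h
            simp only [if_true]
            unfold Ds
            rw [diagonal_mul, map_mul, MvPolynomial.eval_C]
            congr 1
            by_cases h1 : (a : ℕ) % 2 = 1
            · rw [if_pos h1, if_pos h1, map_mul, MvPolynomial.eval_C, MvPolynomial.eval_X, div_eq_mul_inv, mul_comm]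
              rfl
            · rw [if_neg h1, if_neg h1, map_one]
          · simp only [if_neg h, map_zero]
    have h1 := descend (K := K) haut hy (P := MvPolynomial.bind₁ sub q) (by
      rintro x ⟨X, hX⟩
      obtain ⟨h2, h3, h4⟩ := hpt x X hX
      have h5 := fib_stab hn hT hE h4 (sec_tor hc h4.1) hX
      have h6 := ((hI2 _).1 h5).2 q hq
      have h7 : MvPolynomial.eval (fl x) (MvPolynomial.bind₁ sub q) =
          MvPolynomial.eval (fun s => MvPolynomial.eval (fl x) (sub s)) q := by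
        rw [MvPolynomial.eval, MvPolynomial.eval₂Hom_bind₁]
        rfl
      rw [h7, hsub x]
      exact h6)
    have h7 : MvPolynomial.eval (fl y) (MvPolynomial.bind₁ sub q) =
        MvPolynomial.eval (fun s => MvPolynomial.eval (fl y) (sub s)) q := by
      rw [MvPolynomial.eval, MvPolynomial.eval₂Hom_bind₁]
      rfl
    rw [h7, hsub y] at h1
    exact h1

/-- **The relative criterion.** -/
theorem rel_crit (n : ℕ) (hn : Even n) (hn0 : 0 < n) : ∃ d : ℕ, ∀ (B₀ : Type) [Fintype B₀] [DecidableEq B₀] (b₀ : B₀)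
    (N : ℕ) (K : Subfield ℂ) (T : Set (Matrix (I2 B₀ n N) (I2 B₀ n N) ℂ)) (Q c : Fin N → Matrix (Fin n) (Fin n) ℂ)
    (c₀ : Matrix B₀ B₀ ℂ) (Ω₀ : Set (Matrix B₀ B₀ ℂ)), (∀ x ∈ K, IsAlgebraic ℚ x) → IsSubtorsor K T →
    (∀ j a b, Q j a b ∈ K) → IsUnit c₀ → Cm b₀ c₀ → (c, c₀ b₀ b₀) ∈ Tor Q → E2 c₀ c ∈ T → RQ K Q c₀ b₀ c →
    NR2 K Q (c₀ b₀ b₀) c d → (∀ S, IsSubtorsor K S → c₀ ∈ S → Ω₀ ⊆ S) → FP Q b₀ Ω₀ ⊆ T := by
  obtain ⟨d, hd⟩ := all_EE n hn hn0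
  refine ⟨d, ?_⟩
  intro B₀ _ _ b₀ N K T Q c c₀ Ω₀ hK hT hQ hc0 hcm hc hcT hq hr hmin
  set T' := FP Q b₀ {x | IsUnit x} ∩ T with hT'def
  have hT' : IsSubtorsor K T' := inter_sub (fp_sub hn hQ b₀ units_sub) hT
  have hTF : T' ⊆ FP Q b₀ {x | IsUnit x} := Set.inter_subset_left
  have hcT' : E2 c₀ c ∈ T' := ⟨⟨c₀, c, hc0, hcm, hc, rfl⟩, hcT⟩
  have hE := hd B₀ b₀ N K T' Q c c₀ hK hT' hTF hQ hc hcT' hq hr
  have hsub := proj_sub (c₀ := c₀) hn hT' hTF hc hE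
  rintro _ ⟨x, X, hx, hxm, hX, rfl⟩
  obtain ⟨Y, hY⟩ := hmin _ hsub ⟨c, hcT'⟩ hx
  obtain ⟨x', Y', hx', hxm', hY', hxx⟩ := hTF hY
  obtain ⟨e1, e2⟩ := E2_inj hxx
  subst e1 e2
  exact (fib_stab hn hT' hE hY' hX hY).2

end Pool.Agent.Y123.SR
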