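import Pool.Agent.Y123.SR.R4
import Pool.Agent.Y113.W.Tup

/-!
# Sums with a fixed object: the relations of degree two
-/

set_option autoImplicit false
set_option linter.unusedSectionVars false

open Matrix

namespace Pool.Agent.Y123.SR

open Pool.Agent.TH127.PT Pool.Agent.Y118.HP Pool.Agent.Y123.ST Pool.Agent.Y113

section DM

variable {σ m m' m'' : Type}

theorem DC_C {V : Submodule ℚ ℂ} {a : ℂ} (ha : a ∈ V) : DC 0 V (MvPolynomial.C a : MvPolynomial σ ℂ) := by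
  classical
  refine ⟨by rw [MvPolynomial.totalDegree_C], fun s => ?_⟩
  rw [MvPolynomial.coeff_C]
  split_ifs
  · exact ha
  · exact Submodule.zero_mem _

theorem DC_zero (k : ℕ) (V : Submodule ℚ ℂ) : DC k V (0 : MvPolynomial σ ℂ) := by
  refine ⟨by rw [MvPolynomial.totalDegree_zero]; exact Nat.zero_le _, fun s => ?_⟩
  rw [MvPolynomial.coeff_zero]
  exact Submodule.zero_mem _

/-- matrices of polynomials -/
def DM (k : ℕ) (V : Submodule ℚ ℂ) (M : Matrix m m' (MvPolynomial σ ℂ)) : Prop := ∀ i j, DC k V (M i j)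

theorem DM.mul [Fintype m'] {k k' : ℕ} {V V' : Submodule ℚ ℂ} {M : Matrix m m' (MvPolynomial σ ℂ)}
    {M' : Matrix m' m'' (MvPolynomial σ ℂ)} (h : DM k V M) (h' : DM k' V' M') : DM (k + k') (V * V') (M * M') := by
  intro i j
  rw [Matrix.mul_apply]
  exact DC.sum _ fun l _ => (h i l).mul (h' l j)

theorem DM.mapC {k : ℕ} {V : Submodule ℚ ℂ} {A : Matrix m m' ℂ} (hA : ∀ i j, A i j ∈ V) :
    DM k V (A.map (MvPolynomial.C : ℂ →+* MvPolynomial σ ℂ)) := by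
  intro i j
  rw [Matrix.map_apply]
  exact (DC_C (hA i j)).mono (Nat.zero_le _) le_rfl

theorem DM.ofDg {K : Subfield ℂ} {k : ℕ} {V : Submodule ℚ ℂ} (hV : ∀ a ∈ K, a ∈ V) {M : Matrix m m (MvPolynomial σ ℂ)}
    (h : Dg K k M) : DM k V M := by
  intro i j
  exact ⟨(h i j).2.totalDegree_le, fun s => hV _ (PK_coeff (h i j).1 s)⟩

theorem DM.fromBlocks {k : ℕ} {V : Submodule ℚ ℂ} {o o' : Type} {M : Matrix m m' (MvPolynomial σ ℂ)}
    {M' : Matrix o o' (MvPolynomial σ ℂ)} (h : DM k V M) (h' : DM k V M') : DM k V (fromBlocks M 0 0 M') := by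
  rintro (i | i) (j | j)
  · exact h i j
  · exact DC_zero _ _
  · exact DC_zero _ _
  · exact h' i j

end DM

variable {B₀ : Type} [Fintype B₀] [DecidableEq B₀] {n N : ℕ} {K : Subfield ℂ}
  {Q c : Fin N → Matrix (Fin n) (Fin n) ℂ} {c₀ : Matrix B₀ B₀ ℂ} {b₀ : B₀}

/-- the matrix of the polynomials -/
noncomputable def RM2 (Q : Fin N → Matrix (Fin n) (Fin n) ℂ) (lam : ℂ) (c₀ : Matrix B₀ B₀ ℂ)
    (A : Matrix (I2 B₀ n N) (I2 B₀ n N) ℂ) :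
    Matrix (I2 B₀ n N) (I2 B₀ n N) (MvPolynomial (Fin N × Fin n × Fin n) ℂ) :=
  fromBlocks ((lam • c₀⁻¹).map (MvPolynomial.C : ℂ →+* MvPolynomial (Fin N × Fin n × Fin n) ℂ)) 0 0
    (blockDiagonal (fun j => (Q j).map (MvPolynomial.C : ℂ →+* MvPolynomial (Fin N × Fin n × Fin n) ℂ) *
      (XX j)ᵀ * ((jm ℂ n)⁻¹).map (MvPolynomial.C : ℂ →+* MvPolynomial (Fin N × Fin n × Fin n) ℂ))) *
    A.map (MvPolynomial.C : ℂ →+* MvPolynomial (Fin N × Fin n × Fin n) ℂ) *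
    fromBlocks (c₀.map (MvPolynomial.C : ℂ →+* MvPolynomial (Fin N × Fin n × Fin n) ℂ)) 0 0 (blockDiagonal XX)

/-- the polynomials -/
noncomputable def RP2 (Q : Fin N → Matrix (Fin n) (Fin n) ℂ) (lam : ℂ) (c₀ : Matrix B₀ B₀ ℂ)
    (A : Matrix (I2 B₀ n N) (I2 B₀ n N) ℂ) (u : I2 B₀ n N × I2 B₀ n N → ℂ) : MvPolynomial (Fin N × Fin n × Fin n) ℂ :=
  ∑ b, MvPolynomial.C (u b) * RM2 Q lam c₀ A b.1 b.2

theorem RP2_deg (hn : Even n) (hQ : ∀ j a b, Q j a b ∈ K) {lam : ℂ} {W : Submodule ℚ ℂ} (hKW : ∀ a ∈ K, a ∈ W)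
    (h1 : ∀ i j, c₀ i j ∈ W) (h2 : ∀ i j, (lam • c₀⁻¹) i j ∈ W) {A : Matrix (I2 B₀ n N) (I2 B₀ n N) ℂ}
    (hA : ∀ i j, A i j ∈ K) {u : I2 B₀ n N × I2 B₀ n N → ℂ} (hu : ∀ b, u b ∈ K) : DC 2 (W ^ 4) (RP2 Q lam c₀ A u) := by
  have hfst : Dg K 1 (blockDiagonal (fun j : Fin N =>
      (Q j).map (MvPolynomial.C : ℂ →+* MvPolynomial (Fin N × Fin n × Fin n) ℂ) *
      (XX j)ᵀ * ((jm ℂ n)⁻¹).map (MvPolynomial.C : ℂ →+* MvPolynomial (Fin N × Fin n × Fin n) ℂ))) := by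
    have h3 : Dg K (0 + 1 + 0) (blockDiagonal (fun j : Fin N =>
      (Q j).map (MvPolynomial.C : ℂ →+* MvPolynomial (Fin N × Fin n × Fin n) ℂ) *
      (XX j)ᵀ * ((jm ℂ n)⁻¹).map (MvPolynomial.C : ℂ →+* MvPolynomial (Fin N × Fin n × Fin n) ℂ))) :=
      Dg.blockDiag fun j => Dg.mul (Dg.mul (Dg.mapC (hQ j)) (Dg.XX j).transpose) (Dg.mapC (jm_inv_mem hn K))
    simpa using h3
  have hM : DM (1 + 0 + 1) (W * W * W) (RM2 Q lam c₀ A) := by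
    refine DM.mul (DM.mul (DM.fromBlocks (DM.mapC h2) (DM.ofDg hKW hfst)) (DM.mapC fun i j => hKW _ (hA i j)))
      (DM.fromBlocks (DM.mapC h1) (DM.ofDg hKW (Dg.blockDiag fun j => Dg.XX j)))
  unfold RP2
  refine DC.sum _ fun b _ => ?_
  have h3 := (DC_C (σ := Fin N × Fin n × Fin n) (hKW _ (hu b))).mul (hM b.1 b.2)
  have h4 : W * (W * W * W) = W ^ 4 := by ring
  rw [h4] at h3
  exact h3

theorem RP2_eval (hn : Even n) (hc0 : IsUnit c₀) (A : Matrix (I2 B₀ n N) (I2 B₀ n N) ℂ)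
    (u : I2 B₀ n N × I2 B₀ n N → ℂ) {X : Fin N → Matrix (Fin n) (Fin n) ℂ} {lam : ℂ} (hX : (X, lam) ∈ Tor Q) :
    MvPolynomial.eval (cd X) (RP2 Q lam c₀ A u) = lam * ∑ b, u b * fl ((E2 c₀ X)⁻¹ * A * E2 c₀ X) b := by
  obtain ⟨hl, hX⟩ := hX
  have hinv : (E2 c₀ X)⁻¹ = lam⁻¹ • fromBlocks (lam • c₀⁻¹) 0 0 (bd (fun j => Q j * (X j)ᵀ * (jm ℂ n)⁻¹)) := by
    rw [E2_inv hc0 fun j => (tor_det hn hl (hX j)).1]
    have h1 : (fun j => (X j)⁻¹) = lam⁻¹ • fun j => Q j * (X j)ᵀ * (jm ℂ n)⁻¹ := by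
      funext j
      rw [(tor_det hn hl (hX j)).2]
      rfl
    have h2 : c₀⁻¹ = lam⁻¹ • (lam • c₀⁻¹) := by rw [smul_smul, inv_mul_cancel₀ hl, one_smul]
    rw [h1]
    conv_lhs => rw [h2]
    exact (E2_smul lam⁻¹ (lam • c₀⁻¹) (fun j => Q j * (X j)ᵀ * (jm ℂ n)⁻¹)).symm
  have hXX : ∀ j, (XX (N := N) (n := n) j).map (MvPolynomial.eval (cd X)) = X j := by
    intro j
    ext a b
    rw [Matrix.map_apply]
    show MvPolynomial.eval (cd X) (MvPolynomial.X (j, a, b)) = X j a b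
    rw [MvPolynomial.eval_X]
    rfl
  have hCC : ∀ {m : Type} (M : Matrix m m ℂ), (M.map (MvPolynomial.C : ℂ →+* MvPolynomial
      (Fin N × Fin n × Fin n) ℂ)).map (MvPolynomial.eval (cd X)) = M := by
    intro m M
    ext a b
    simp
  have hz : ∀ {m m' : Type}, (0 : Matrix m m' (MvPolynomial (Fin N × Fin n × Fin n) ℂ)).map
      (MvPolynomial.eval (cd X)) = 0 := by
    intro m m'
    ext a b
    simp
  have hev : (RM2 Q lam c₀ A).map (MvPolynomial.eval (cd X)) =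
      fromBlocks (lam • c₀⁻¹) 0 0 (bd (fun j => Q j * (X j)ᵀ * (jm ℂ n)⁻¹)) * A * E2 c₀ X := by
    unfold RM2 E2
    rw [Matrix.map_mul, Matrix.map_mul, fromBlocks_map, fromBlocks_map, hCC, hCC, hCC, hz, hz,
      blockDiagonal_map _ _ (map_zero _), blockDiagonal_map _ _ (map_zero _)]
    have h1 : (fun k => ((Q k).map (MvPolynomial.C : ℂ →+* MvPolynomial (Fin N × Fin n × Fin n) ℂ) *
      (XX k)ᵀ * ((jm ℂ n)⁻¹).map (MvPolynomial.C : ℂ →+* MvPolynomial (Fin N × Fin n × Fin n) ℂ)).map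
        (MvPolynomial.eval (cd X))) = fun j => Q j * (X j)ᵀ * (jm ℂ n)⁻¹ := by
      funext j
      rw [Matrix.map_mul, Matrix.map_mul, hCC, hCC, Matrix.transpose_map, hXX]
    have h2 : (fun k => (XX (N := N) (n := n) k).map (MvPolynomial.eval (cd X))) = X := by
      funext j
      exact hXX j
    rw [h1, h2]
  unfold RP2
  rw [map_sum, Finset.mul_sum]
  refine Finset.sum_congr rfl fun b _ => ?_
  rw [map_mul, MvPolynomial.eval_C]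
  have h3 := congrFun (congrFun hev b.1) b.2
  rw [Matrix.map_apply] at h3
  rw [h3, hinv, Matrix.smul_mul, Matrix.smul_mul, fl_smul, Pi.smul_apply, smul_eq_mul]
  unfold fl
  field_simp

/-- relations with coefficients in a space -/
def NV (V : Submodule ℚ ℂ) (Q : Fin N → Matrix (Fin n) (Fin n) ℂ) (lam : ℂ) (c : Fin N → Matrix (Fin n) (Fin n) ℂ)
    (d : ℕ) : Prop :=
  ∀ P : MvPolynomial (Fin N × Fin n × Fin n) ℂ, P.totalDegree ≤ d → (∀ s, P.coeff s ∈ V) →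
    MvPolynomial.eval (cd c) P = 0 → ∀ X, (X, lam) ∈ Tor Q → MvPolynomial.eval (cd X) P = 0

theorem RQ_of_NV (hn : Even n) (hQ : ∀ j a b, Q j a b ∈ K) (hc0 : IsUnit c₀) {W : Submodule ℚ ℂ}
    (hKW : ∀ a ∈ K, a ∈ W) (h1 : ∀ i j, c₀ i j ∈ W) (h2 : ∀ i j, (c₀ b₀ b₀ • c₀⁻¹) i j ∈ W)
    (hc : (c, c₀ b₀ b₀) ∈ Tor Q) {d : ℕ} (hd : 2 ≤ d) (h : NV (W ^ 4) Q (c₀ b₀ b₀) c d) : RQ K Q c₀ b₀ c := by
  intro A u hA hu h3 X hX
  have h4 := RP2_deg (N := N) hn hQ hKW h1 h2 hA hu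
  have h5 := h (RP2 Q (c₀ b₀ b₀) c₀ A u) (h4.1.trans hd) h4.2 (by rw [RP2_eval hn hc0 A u hc, h3, mul_zero]) X hX
  rw [RP2_eval hn hc0 A u hX] at h5
  exact (mul_eq_zero.1 h5).resolve_left hc.1

theorem NR2_of_NV {W : Submodule ℚ ℂ} (hKW : ∀ a ∈ K, a ∈ W) {lam : ℂ} {d : ℕ} (h : NV (W ^ 4) Q lam c d) :
    NR2 K Q lam c d := by
  intro P hP hd h0 X hX
  refine h P hd (fun s => ?_) h0 X hX
  have h1 : W ^ 1 ≤ W ^ 4 := pow_mono_sub (hKW 1 K.one_mem) (by norm_num)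
  rw [pow_one] at h1
  exact h1 (hKW _ (hP s))

/-- the space -/
theorem exists_W (K : Subfield ℂ) [FiniteDimensional ℚ K] (c₀ : Matrix B₀ B₀ ℂ) (b₀ : B₀) :
    ∃ W : Submodule ℚ ℂ, Module.Finite ℚ W ∧
      Module.finrank ℚ W ≤ Module.finrank ℚ K + (Fintype.card (B₀ × B₀) + Fintype.card (B₀ × B₀)) + 1 ∧
      (∀ a ∈ K, a ∈ W) ∧ (∀ i j, c₀ i j ∈ W) ∧ ∀ i j, (c₀ b₀ b₀ • c₀⁻¹) i j ∈ W := by
  set kb := Module.finBasis ℚ K with hkb
  set x : Fin (Module.finrank ℚ K) ⊕ ((B₀ × B₀) ⊕ (B₀ × B₀)) → ℂ :=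
    Sum.elim (fun i => (kb i : ℂ)) (Sum.elim (fl c₀) (fl (c₀ b₀ b₀ • c₀⁻¹))) with hx
  obtain ⟨h1, h2⟩ := sp_fin x
  refine ⟨sp x, h1, ?_, fun a ha => ?_, fun i j => ?_, fun i j => ?_⟩
  · refine h2.trans (le_of_eq ?_)
    rw [Fintype.card_sum, Fintype.card_sum, Fintype.card_fin]
  · have h3 := kb.sum_repr ⟨a, ha⟩
    have h4 := congrArg (fun z : K => (z : ℂ)) h3
    simp only at h4
    rw [← h4]
    have h5 : ((∑ i, (kb.repr ⟨a, ha⟩) i • kb i : K) : ℂ) = ∑ i, (kb.repr ⟨a, ha⟩) i • (kb i : ℂ) := by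
      push_cast
      refine Finset.sum_congr rfl fun i _ => ?_
      rw [Algebra.smul_def]
    rw [h5]
    exact Submodule.sum_mem _ fun i _ => Submodule.smul_mem _ _ (sp_mem x (Sum.inl i))
  · exact sp_mem x (Sum.inr (Sum.inl (i, j)))
  · exact sp_mem x (Sum.inr (Sum.inr (i, j)))

end Pool.Agent.Y123.SR
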