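import Pool.Agent.Y123.SR.R6

/-!
# Sums with a fixed object: all subtorsors
-/

set_option autoImplicit false
set_option linter.unusedSectionVars false

open Matrix Polynomial

namespace Pool.Agent.Y123.SR

open Pool.Agent.TH127.PT Pool.Agent.Y118.HP Pool.Agent.Y118.HG Pool.Agent.Y123.ST

/-- **The relative criterion**, for all subtorsors. -/
theorem rel_all (n : ℕ) (hn : Even n) (hn0 : 0 < n) : ∃ d : ℕ, ∀ (B₀ : Type) [Fintype B₀] [DecidableEq B₀] (b₀ : B₀)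
    (N : ℕ) (K : Subfield ℂ) (W : Submodule ℚ ℂ) (Q c : Fin N → Matrix (Fin n) (Fin n) ℂ)
    (c₀ : Matrix B₀ B₀ ℂ), (∀ x ∈ K, IsAlgebraic ℚ x) →
    (∀ a ∈ K, a ∈ W) → (∀ i j, c₀ i j ∈ W) → (∀ i j, (c₀ b₀ b₀ • c₀⁻¹) i j ∈ W) →
    (∀ j a b, Q j a b ∈ K) → IsUnit c₀ → Cm b₀ c₀ → (c, c₀ b₀ b₀) ∈ Tor Q →
    NV (W ^ 4) Q (c₀ b₀ b₀) c d → ∀ T : Set (Matrix (I2 B₀ n N) (I2 B₀ n N) ℂ), IsSubtorsor K T → E2 c₀ c ∈ T →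
      T ⊆ FP Q b₀ {x | IsUnit x} →
      IsSubtorsor K {x : Matrix B₀ B₀ ℂ | ∃ X, E2 x X ∈ T} ∧ T = FP Q b₀ {x : Matrix B₀ B₀ ℂ | ∃ X, E2 x X ∈ T} := by
  obtain ⟨d, hd⟩ := all_EE n hn hn0
  refine ⟨d + 2, ?_⟩
  intro B₀ _ _ b₀ N K W Q c c₀ hK hKW h1 h2 hQ hc0 hcm hc hr T hT hcT hTF
  have hr' : NV (W ^ 4) Q (c₀ b₀ b₀) c d := fun P h3 h4 => hr P (by omega) h4
  have hE := hd B₀ b₀ N K T Q c c₀ hK hT hTF hQ hc hcT (RQ_of_NV hn hQ hc0 hKW h1 h2 hc (Nat.le_add_left 2 d) hr)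
    (NR2_of_NV hKW hr')
  refine ⟨proj_sub (c₀ := c₀) hn hT hTF hc hE, Set.Subset.antisymm (fun y hy => ?_) ?_⟩
  · obtain ⟨x, X, hx, hxm, hX, rfl⟩ := hTF hy
    exact ⟨x, X, ⟨X, hy⟩, hxm, hX, rfl⟩
  · rintro _ ⟨x, X, ⟨Y, hY⟩, hxm, hX, rfl⟩
    obtain ⟨x', Y', hx', hxm', hY', hxx⟩ := hTF hY
    obtain ⟨e1, e2⟩ := E2_inj hxx
    subst e1 e2
    exact fib_stab hn hT hE hY' hX hY

theorem om_of_all {n N : ℕ} (hn : Even n) {B₀ : Type} [Fintype B₀] [DecidableEq B₀] {b₀ : B₀} {K : Subfield ℂ}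
    {Q c : Fin N → Matrix (Fin n) (Fin n) ℂ} {c₀ : Matrix B₀ B₀ ℂ} (hQ : ∀ j a b, Q j a b ∈ K) (hu : IsUnit c₀)
    (hcm : Cm b₀ c₀) (htor : (c, c₀ b₀ b₀) ∈ Tor Q)
    (h : ∀ T : Set (Matrix (I2 B₀ n N) (I2 B₀ n N) ℂ), IsSubtorsor K T → E2 c₀ c ∈ T →
      T ⊆ FP Q b₀ {x | IsUnit x} →
      IsSubtorsor K {x : Matrix B₀ B₀ ℂ | ∃ X, E2 x X ∈ T} ∧ T = FP Q b₀ {x : Matrix B₀ B₀ ℂ | ∃ X, E2 x X ∈ T})
    {Ω₀ : Set (Matrix B₀ B₀ ℂ)} (hΩ : Om K c₀ Ω₀) : Om K (E2 c₀ c) (FP Q b₀ Ω₀) := by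
  obtain ⟨hΩ1, hΩ2, hΩ3⟩ := hΩ
  refine ⟨?_, ⟨c₀, c, hΩ2, hcm, htor, rfl⟩, fun T hT hcT => ?_⟩
  · rw [subT_iff]
    exact fp_sub hn hQ b₀ (subT_iff.1 hΩ1)
  · have hI := inter_sub (fp_sub (K := K) hn hQ b₀ (units_sub (B₀ := B₀))) (subT_iff.1 hT)
    have hcI : E2 c₀ c ∈ FP Q b₀ {x | IsUnit x} ∩ T := ⟨⟨c₀, c, hu, hcm, htor, rfl⟩, hcT⟩
    obtain ⟨h1, h2⟩ := h _ hI hcI Set.inter_subset_left
    have h3 := hΩ3 _ (subT_iff.2 h1) ⟨c, hcI⟩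
    rintro _ ⟨x, X, h4, h5, h6, rfl⟩
    have h7 : E2 x X ∈ FP Q b₀ {x : Matrix B₀ B₀ ℂ | ∃ X, E2 x X ∈ FP Q b₀ {x | IsUnit x} ∩ T} :=
      ⟨x, X, h3 h4, h5, h6, rfl⟩
    rw [← h2] at h7
    exact h7.2

/-- **Main theorem**, for all subtorsors -/
theorem rel_hyp_all (n N : ℕ) (hn : Even n) (hn0 : 0 < n) (a : Fin N → Fin n → ℝ) (f : Fin N → ℚ[X])
    (hf : ∀ j, (f j).map (algebraMap ℚ ℝ) = ∏ i, (X - C (a j i))) (m : Fin N → Fin (n + 1))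
    (h0 : ∀ j, StrictMono (er (a j) (m j) 0)) (D r : ℕ) :
    ∃ c M : ℝ, 0 < c ∧ ∀ K : Subfield ℂ, FiniteDimensional ℚ K → Module.finrank ℚ K ≤ D →
      ∀ (B₀ : Type) [Fintype B₀] [DecidableEq B₀] (b₀ : B₀) (c₀ : Matrix B₀ B₀ ℂ), Fintype.card B₀ ≤ r → IsUnit c₀ →
      Cm b₀ c₀ → c₀ b₀ b₀ = 2 * Real.pi * Complex.I →
      ∀ T : ℕ, 1 ≤ T → ∃ S : Finset (Fin N → ℕ), (S.card : ℝ) ≤ M * (T : ℝ) ^ ((N : ℝ) - c) ∧
      ∀ t : Fin N → ℕ, (∀ j, 1 ≤ t j ∧ t j ≤ T) → t ∉ S →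
        (∀ j, StrictMono (er (a j) (m j) (1 / (t j : ℝ)))) ∧
        ((fun j => Matrix.of (cper (er (a j) (m j) (1 / (t j : ℝ))))), c₀ b₀ b₀) ∈
          Tor (fun j => (-1 / 2 : ℂ) • (qm n (f j * (X - C (1 / (t j : ℚ))))).map (algebraMap ℚ ℂ)) ∧
        ∀ T' : Set (Matrix (I2 B₀ n N) (I2 B₀ n N) ℂ), IsSubtorsor K T' →
          E2 c₀ (fun j => Matrix.of (cper (er (a j) (m j) (1 / (t j : ℝ))))) ∈ T' →
          T' ⊆ FP (fun j => (-1 / 2 : ℂ) • (qm n (f j * (X - C (1 / (t j : ℚ))))).map (algebraMap ℚ ℂ)) b₀ {x | IsUnit x} →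
          IsSubtorsor K {x : Matrix B₀ B₀ ℂ | ∃ X, E2 x X ∈ T'} ∧
          T' = FP (fun j => (-1 / 2 : ℂ) • (qm n (f j * (X - C (1 / (t j : ℚ))))).map (algebraMap ℚ ℂ)) b₀
            {x : Matrix B₀ B₀ ℂ | ∃ X, E2 x X ∈ T'} := by
  have ha : ∀ j, StrictMono (a j) := fun j => (inGap_of_er (h0 j)).1
  have hg0 : ∀ j, InGap (a j) (m j) 0 := fun j => (inGap_of_er (h0 j)).2
  obtain ⟨d, hd⟩ := rel_all n hn hn0
  obtain ⟨c, hc, M, hM, hmain⟩ := vver hn a ha m f hg0 hf ((D + (r * r + r * r) + 1) ^ 4) d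
  refine ⟨c, M, hc, ?_⟩
  intro K hKf hKD B₀ _ _ b₀ c₀ hr hc0 hcm hlam T hT
  obtain ⟨W, hW1, hW2, hKW, hW3, hW4⟩ := exists_W K c₀ b₀
  obtain ⟨hp1, hp2⟩ := Pool.Agent.Y113.finrank_pow_le W 4
  have hcard : Module.finrank ℚ W ≤ D + (r * r + r * r) + 1 := by
    refine hW2.trans ?_
    rw [Fintype.card_prod]
    have := Nat.mul_le_mul hr hr
    omega
  obtain ⟨S, hS1, hS2⟩ := hmain (W ^ 4) hp1 (hp2.trans (Nat.pow_le_pow_left hcard 4)) T hT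
  refine ⟨S, hS1, fun t ht htS => ?_⟩
  obtain ⟨hgap, hP⟩ := hS2 t ht htS
  have hcast : ∀ j, (((1 / (t j : ℚ) : ℚ)) : ℝ) = 1 / (t j : ℝ) := fun j => by push_cast; rfl
  have hpt : (fun j => Matrix.of (cper (er (a j) (m j) (1 / (t j : ℝ))))) =
      fun j => CM (a j) (m j) (((1 / (t j : ℚ) : ℚ)) : ℝ) := by
    funext j
    rw [hcast]
    rfl
  have h2pi : (2 * Real.pi * Complex.I : ℂ) ≠ 0 := by
    have := Complex.I_ne_zero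
    have h2 : (Real.pi : ℂ) ≠ 0 := by exact_mod_cast Real.pi_ne_zero
    exact mul_ne_zero (mul_ne_zero two_ne_zero h2) this
  have hQe : (fun j => (-1 / 2 : ℂ) • (qm n (f j * (X - C (1 / (t j : ℚ))))).map (algebraMap ℚ ℂ)) =
      fun j => (-1 / 2 : ℂ) • (Qp n (f j)).map (aeval ((1 / (t j : ℚ) : ℚ) : ℂ)) := by
    funext j
    rw [qm_eq]
  have htor : ((fun j => CM (a j) (m j) (((1 / (t j : ℚ) : ℚ)) : ℝ)), c₀ b₀ b₀) ∈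
      Tor (fun j => (-1 / 2 : ℂ) • (Qp n (f j)).map (aeval ((1 / (t j : ℚ) : ℚ) : ℂ))) := by
    rw [hlam]
    exact ⟨h2pi, fun j => CM_mem hn (ha j) (hf j) (hgap j)⟩
  refine ⟨fun j => ?_, ?_, ?_⟩
  · have := er_of_inGap (ha j) (hgap j)
    rwa [hcast] at this
  · rw [hpt, hQe]
    exact htor
  · rw [hpt, hQe]
    refine hd B₀ b₀ N K W _ _ c₀ ?_ hKW hW3 hW4 ?_ hc0 hcm htor ?_
    · intro x hx
      have : NumberField K := { to_charZero := inferInstance, to_finiteDimensional := hKf }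
      have h6 : IsAlgebraic ℚ (⟨x, hx⟩ : K) := Algebra.IsAlgebraic.isAlgebraic _
      exact h6.algebraMap (A := ℂ)
    · intro j a' b'
      have h7 := half_mem (K := K) (Q := fun j => (qm n (f j * (X - C (1 / (t j : ℚ))))).map (algebraMap ℚ ℂ))
        (fun j a b => SubfieldClass.ratCast_mem K _) j a' b'
      simp only [qm_eq] at h7
      exact h7
    · intro P hPd hPc hPv X' hX'
      rw [hlam] at hX'
      have h8 := hP P hPd hPc (by rw [MvPolynomial.aeval_eq_eval]; exact hPv) X' (fun j => hX'.2 j)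
      rw [MvPolynomial.aeval_eq_eval] at h8
      exact h8

end Pool.Agent.Y123.SR
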